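import Pool.Agent.LibMS9.ConeDefs

/-!
T2: no derivation of the cone with values in `A_x ∩ A_y` extends a derivation `D` of `ℂ` with
`D λ ≠ 0`.
-/

set_option autoImplicit false

open CategoryTheory Limits AlgebraicGeometry Opposite TopologicalSpace

namespace Pool.Agent.MS9

/-! ### polynomial functional -/

/-- coefficient of `x ^ i y ^ j z ^ k` -/
noncomputable def t2_c (i j k : ℕ) (g : Polynomial (MvPolynomial (Fin 2) ℂ)) : ℂ :=
  MvPolynomial.coeff (Finsupp.single 0 i + Finsupp.single 1 j) (g.coeff k)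

theorem t2_c_add (i j k : ℕ) (g h : Polynomial (MvPolynomial (Fin 2) ℂ)) :
    t2_c i j k (g + h) = t2_c i j k g + t2_c i j k h := by
  unfold t2_c
  rw [Polynomial.coeff_add, MvPolynomial.coeff_add]

theorem t2_c_C (i j k : ℕ) (a : ℂ) (g : Polynomial (MvPolynomial (Fin 2) ℂ)) :
    t2_c i j k (Polynomial.C (MvPolynomial.C a) * g) = a * t2_c i j k g := by
  unfold t2_c
  rw [Polynomial.coeff_C_mul, MvPolynomial.coeff_C_mul]

theorem t2_c_x_succ (i j k : ℕ) (g : Polynomial (MvPolynomial (Fin 2) ℂ)) :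
    t2_c (i + 1) j k (Polynomial.C (MvPolynomial.X 0) * g) = t2_c i j k g := by
  unfold t2_c
  rw [Polynomial.coeff_C_mul, mul_comm]
  have : (Finsupp.single 0 (i + 1) + Finsupp.single 1 j : Fin 2 →₀ ℕ) =
      (Finsupp.single 0 i + Finsupp.single 1 j) + Finsupp.single 0 1 := by
    rw [Finsupp.single_add]
    abel
  rw [this, MvPolynomial.coeff_mul_X]

theorem t2_c_x_zero (j k : ℕ) (g : Polynomial (MvPolynomial (Fin 2) ℂ)) :
    t2_c 0 j k (Polynomial.C (MvPolynomial.X 0) * g) = 0 := by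
  unfold t2_c
  rw [Polynomial.coeff_C_mul, mul_comm, MvPolynomial.coeff_mul_X', if_neg]
  rw [Finsupp.mem_support_iff]
  simp

theorem t2_c_y_succ (i j k : ℕ) (g : Polynomial (MvPolynomial (Fin 2) ℂ)) :
    t2_c i (j + 1) k (Polynomial.C (MvPolynomial.X 1) * g) = t2_c i j k g := by
  unfold t2_c
  rw [Polynomial.coeff_C_mul, mul_comm]
  have : (Finsupp.single 0 i + Finsupp.single 1 (j + 1) : Fin 2 →₀ ℕ) =
      (Finsupp.single 0 i + Finsupp.single 1 j) + Finsupp.single 1 1 := by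
    rw [Finsupp.single_add]
    abel
  rw [this, MvPolynomial.coeff_mul_X]

theorem t2_c_y_zero (i k : ℕ) (g : Polynomial (MvPolynomial (Fin 2) ℂ)) :
    t2_c i 0 k (Polynomial.C (MvPolynomial.X 1) * g) = 0 := by
  unfold t2_c
  rw [Polynomial.coeff_C_mul, mul_comm, MvPolynomial.coeff_mul_X', if_neg]
  rw [Finsupp.mem_support_iff]
  simp

theorem t2_c_z_succ (i j k : ℕ) (g : Polynomial (MvPolynomial (Fin 2) ℂ)) :
    t2_c i j (k + 1) (Polynomial.X * g) = t2_c i j k g := by
  unfold t2_c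
  rw [Polynomial.coeff_X_mul]

theorem t2_c_z_zero (i j : ℕ) (g : Polynomial (MvPolynomial (Fin 2) ℂ)) :
    t2_c i j 0 (Polynomial.X * g) = 0 := by
  unfold t2_c
  rw [Polynomial.coeff_X_mul_zero, MvPolynomial.coeff_zero]

/-- the functional -/
noncomputable def t2_L (lam : ℂ) (g : Polynomial (MvPolynomial (Fin 2) ℂ)) : ℂ :=
  lam * (t2_c 3 0 0 g + t2_c 0 3 0 g + t2_c 0 0 3 g) + t2_c 1 1 1 g

theorem t2_L_add (lam : ℂ) (g h : Polynomial (MvPolynomial (Fin 2) ℂ)) :
    t2_L lam (g + h) = t2_L lam g + t2_L lam h := by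
  unfold t2_L
  rw [t2_c_add, t2_c_add, t2_c_add, t2_c_add]
  ring

theorem t2_L_C (lam a : ℂ) (g : Polynomial (MvPolynomial (Fin 2) ℂ)) :
    t2_L lam (Polynomial.C (MvPolynomial.C a) * g) = a * t2_L lam g := by
  unfold t2_L
  rw [t2_c_C, t2_c_C, t2_c_C, t2_c_C]
  ring

/-- `x` -/
noncomputable abbrev t2_px : Polynomial (MvPolynomial (Fin 2) ℂ) :=
  Polynomial.C (MvPolynomial.X 0)

/-- `y` -/
noncomputable abbrev t2_py : Polynomial (MvPolynomial (Fin 2) ℂ) :=
  Polynomial.C (MvPolynomial.X 1)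

/-- `z` -/
noncomputable abbrev t2_pz : Polynomial (MvPolynomial (Fin 2) ℂ) := Polynomial.X

/-- constants -/
noncomputable abbrev t2_pc (a : ℂ) : Polynomial (MvPolynomial (Fin 2) ℂ) :=
  Polynomial.C (MvPolynomial.C a)

theorem t2_conePoly (lam : ℂ) : conePoly lam =
    t2_pz * (t2_pz * t2_pz) + t2_pc (-(3 * lam)) * (t2_px * (t2_py * t2_pz)) + t2_px * (t2_px * t2_px) + t2_py * (t2_py * t2_py) := by
  unfold conePoly t2_pc
  simp only [map_neg, map_mul, map_add, map_pow]
  ring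

/-- the functional kills the multiples of the equation -/
theorem t2_L_f (lam : ℂ) (s : Polynomial (MvPolynomial (Fin 2) ℂ)) :
    t2_L lam (conePoly lam * s) = 0 := by
  have h : conePoly lam * s = t2_pz * (t2_pz * (t2_pz * s)) + t2_pc (-(3 * lam)) * (t2_px * (t2_py * (t2_pz * s))) +
      t2_px * (t2_px * (t2_px * s)) + t2_py * (t2_py * (t2_py * s)) := by
    rw [t2_conePoly]
    ring
  rw [h, t2_L_add, t2_L_add, t2_L_add, t2_L_C]
  simp only [t2_L, t2_c_x_succ, t2_c_x_zero, t2_c_y_succ, t2_c_y_zero, t2_c_z_succ, t2_c_z_zero]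
  ring

theorem t2_L_x (lam : ℂ) (p : Polynomial (MvPolynomial (Fin 2) ℂ)) :
    t2_L lam (t2_px * (t2_px * p) + t2_pc (-lam) * (t2_py * (t2_pz * p))) = 0 := by
  rw [t2_L_add, t2_L_C]
  simp only [t2_L, t2_c_x_succ, t2_c_x_zero, t2_c_y_succ, t2_c_y_zero, t2_c_z_succ, t2_c_z_zero]
  ring

theorem t2_L_y (lam : ℂ) (p : Polynomial (MvPolynomial (Fin 2) ℂ)) :
    t2_L lam (t2_py * (t2_py * p) + t2_pc (-lam) * (t2_px * (t2_pz * p))) = 0 := by
  rw [t2_L_add, t2_L_C]
  simp only [t2_L, t2_c_x_succ, t2_c_x_zero, t2_c_y_succ, t2_c_y_zero, t2_c_z_succ, t2_c_z_zero]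
  ring

theorem t2_L_z (lam : ℂ) (p : Polynomial (MvPolynomial (Fin 2) ℂ)) :
    t2_L lam (t2_pz * (t2_pz * p) + t2_pc (-lam) * (t2_px * (t2_py * p))) = 0 := by
  rw [t2_L_add, t2_L_C]
  simp only [t2_L, t2_c_x_succ, t2_c_x_zero, t2_c_y_succ, t2_c_y_zero, t2_c_z_succ, t2_c_z_zero]
  ring

theorem t2_L_xyz (lam : ℂ) : t2_L lam (t2_px * (t2_py * (t2_pz * 1))) = 1 := by
  simp only [t2_L, t2_c_x_succ, t2_c_x_zero, t2_c_y_succ, t2_c_y_zero, t2_c_z_succ, t2_c_z_zero]
  unfold t2_c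
  simp

/-- the main algebraic step, in the cone -/
theorem t2_main (lam d : ℂ) (P Q R : Cone lam)
    (h : (3 : Cone lam) * ((Cone.x lam * (Cone.x lam * P) + algebraMap ℂ _ (-lam) *
        (Cone.y lam * (AdjoinRoot.root (conePoly lam) * P))) +
      (Cone.y lam * (Cone.y lam * Q) + algebraMap ℂ _ (-lam) *
        (Cone.x lam * (AdjoinRoot.root (conePoly lam) * Q))) +
      (AdjoinRoot.root (conePoly lam) * (AdjoinRoot.root (conePoly lam) * R) +
        algebraMap ℂ _ (-lam) * (Cone.x lam * (Cone.y lam * R)))) =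
      (3 : Cone lam) * (algebraMap ℂ _ d *
        (Cone.x lam * (Cone.y lam * (AdjoinRoot.root (conePoly lam) * 1))))) : d = 0 := by
  obtain ⟨p, rfl⟩ := AdjoinRoot.mk_surjective P
  obtain ⟨q, rfl⟩ := AdjoinRoot.mk_surjective Q
  obtain ⟨r, rfl⟩ := AdjoinRoot.mk_surjective R
  have hal : ∀ a : ℂ, algebraMap ℂ (Cone lam) a = AdjoinRoot.mk (conePoly lam) (t2_pc a) := fun _ => rfl
  have hx : Cone.x lam = AdjoinRoot.mk (conePoly lam) t2_px := rfl
  have hy : Cone.y lam = AdjoinRoot.mk (conePoly lam) t2_py := rfl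
  have hz : AdjoinRoot.root (conePoly lam) = AdjoinRoot.mk (conePoly lam) t2_pz := rfl
  have h3 : (3 : Cone lam) = AdjoinRoot.mk (conePoly lam) (t2_pc 3) := by
    rw [← hal]
    exact (map_ofNat (algebraMap ℂ (Cone lam)) 3).symm
  rw [hal, hal, hx, hy, hz, h3] at h
  rw [← (AdjoinRoot.mk (conePoly lam)).map_one] at h
  simp only [← map_mul, ← map_add] at h
  rw [AdjoinRoot.mk_eq_mk] at h
  obtain ⟨s, hs⟩ := h
  have h4 := congrArg (t2_L lam) (sub_eq_iff_eq_add.1 hs)
  rw [t2_L_add, t2_L_f, t2_L_C, t2_L_C, t2_L_add, t2_L_add, t2_L_x, t2_L_y, t2_L_z, t2_L_C,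
    t2_L_xyz] at h4
  have h5 : (3 : ℂ) * d = 0 := by linear_combination -h4
  rcases mul_eq_zero.1 h5 with h6 | h6
  · norm_num at h6
  · exact h6

/-! ### the cone is free over `ℂ[x, y]` -/

theorem t2_monic (lam : ℂ) : (conePoly lam).Monic := by
  have h : conePoly lam = Polynomial.X ^ 3 + (Polynomial.C (-(MvPolynomial.C (3 * lam) *
      MvPolynomial.X 0 * MvPolynomial.X 1)) * Polynomial.X +
      Polynomial.C (MvPolynomial.X 0 ^ 3 + MvPolynomial.X 1 ^ 3)) := by
    unfold conePoly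
    rw [Polynomial.C_neg]
    ring
  rw [h]
  apply Polynomial.monic_X_pow_add
  refine lt_of_le_of_lt Polynomial.degree_linear_le ?_
  norm_num

theorem t2_dvd (lam : ℂ) (r : MvPolynomial (Fin 2) ℂ) (a : Cone lam) :
    AdjoinRoot.of (conePoly lam) r ∣ a ↔
      ∀ i, r ∣ (AdjoinRoot.powerBasis' (t2_monic lam)).basis.repr a i := by
  constructor
  · rintro ⟨c, rfl⟩ i
    have h1 : AdjoinRoot.of (conePoly lam) r * c = r • c := (Algebra.smul_def r c).symm
    rw [h1, map_smul]
    exact ⟨_, rfl⟩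
  · intro h
    choose c hc using h
    refine ⟨∑ i, c i • (AdjoinRoot.powerBasis' (t2_monic lam)).basis i, ?_⟩
    have h1 : AdjoinRoot.of (conePoly lam) r *
        ∑ i, c i • (AdjoinRoot.powerBasis' (t2_monic lam)).basis i =
        r • ∑ i, c i • (AdjoinRoot.powerBasis' (t2_monic lam)).basis i :=
      (Algebra.smul_def r _).symm
    rw [h1, Finset.smul_sum]
    conv_lhs => rw [← (AdjoinRoot.powerBasis' (t2_monic lam)).basis.sum_repr a]
    refine Finset.sum_congr rfl fun i _ => ?_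
    rw [hc i, mul_smul]

theorem t2_repr (lam : ℂ) (r : MvPolynomial (Fin 2) ℂ) (a : Cone lam)
    (i : Fin (AdjoinRoot.powerBasis' (t2_monic lam)).dim) :
    (AdjoinRoot.powerBasis' (t2_monic lam)).basis.repr (AdjoinRoot.of (conePoly lam) r * a) i =
      r * (AdjoinRoot.powerBasis' (t2_monic lam)).basis.repr a i := by
  have h1 : AdjoinRoot.of (conePoly lam) r * a = r • a := (Algebra.smul_def r a).symm
  rw [h1, map_smul]
  rfl

/-- nonzero elements of `ℂ[x, y]` are nonzero divisors on the cone -/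
theorem t2_cancel (lam : ℂ) (r : MvPolynomial (Fin 2) ℂ) (hr : r ≠ 0) (a b : Cone lam)
    (h : AdjoinRoot.of (conePoly lam) r * a = AdjoinRoot.of (conePoly lam) r * b) : a = b := by
  apply (AdjoinRoot.powerBasis' (t2_monic lam)).basis.repr.injective
  ext1 i
  have h1 := congrArg
    (fun u => (AdjoinRoot.powerBasis' (t2_monic lam)).basis.repr u i) h
  simp only [t2_repr] at h1
  exact mul_left_cancel₀ hr h1

theorem t2_prime_x : Prime (MvPolynomial.X 0 : MvPolynomial (Fin 2) ℂ) :=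
  MvPolynomial.X_prime

theorem t2_prime_y : Prime (MvPolynomial.X 1 : MvPolynomial (Fin 2) ℂ) :=
  MvPolynomial.X_prime

theorem t2_not_dvd : ¬ (MvPolynomial.X 0 : MvPolynomial (Fin 2) ℂ) ∣ MvPolynomial.X 1 := by
  rintro ⟨c, hc⟩
  have h := congrArg (MvPolynomial.eval (fun i : Fin 2 => if i = 0 then (0 : ℂ) else 1)) hc
  simp at h

/-- regular sequence -/
theorem t2_reg (lam : ℂ) (m n : ℕ) (u v : Cone lam)
    (h : Cone.x lam ^ m * u = Cone.y lam ^ n * v) : Cone.x lam ^ m ∣ v := by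
  have hx : Cone.x lam ^ m = AdjoinRoot.of (conePoly lam) (MvPolynomial.X 0 ^ m) := by
    rw [map_pow]; rfl
  have hy : Cone.y lam ^ n = AdjoinRoot.of (conePoly lam) (MvPolynomial.X 1 ^ n) := by
    rw [map_pow]; rfl
  rw [hx, t2_dvd]
  intro i
  have h1 := congrArg
    (fun u => (AdjoinRoot.powerBasis' (t2_monic lam)).basis.repr u i) h
  simp only [hx, hy, t2_repr] at h1
  refine t2_prime_x.pow_dvd_of_dvd_mul_left m (a := MvPolynomial.X 1 ^ n) ?_ ⟨_, h1.symm⟩
  intro h2
  exact t2_not_dvd (t2_prime_x.dvd_of_dvd_pow h2)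

/-! ### the intersection of the two localizations -/

theorem t2_x_pow (lam : ℂ) (m : ℕ) :
    Cone.x lam ^ m = AdjoinRoot.of (conePoly lam) (MvPolynomial.X 0 ^ m) := by
  rw [map_pow]; rfl

theorem t2_y_pow (lam : ℂ) (m : ℕ) :
    Cone.y lam ^ m = AdjoinRoot.of (conePoly lam) (MvPolynomial.X 1 ^ m) := by
  rw [map_pow]; rfl

theorem t2_inj_x (lam : ℂ) :
    Function.Injective (algebraMap (Cone lam) (Localization.Away (Cone.x lam))) := by
  apply IsLocalization.injective (M := Submonoid.powers (Cone.x lam))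
  rintro _ ⟨m, rfl⟩
  rw [mem_nonZeroDivisors_iff_right]
  intro a ha
  apply t2_cancel lam (MvPolynomial.X 0 ^ m) (pow_ne_zero _ t2_prime_x.ne_zero)
  rw [← t2_x_pow, mul_zero, mul_comm]
  exact ha

theorem t2_inj_xy (lam : ℂ) :
    Function.Injective
      (algebraMap (Cone lam) (Localization.Away (Cone.x lam * Cone.y lam))) := by
  apply IsLocalization.injective (M := Submonoid.powers (Cone.x lam * Cone.y lam))
  rintro _ ⟨m, rfl⟩
  rw [mem_nonZeroDivisors_iff_right]
  intro a ha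
  apply t2_cancel lam (MvPolynomial.X 0 ^ m) (pow_ne_zero _ t2_prime_x.ne_zero)
  apply t2_cancel lam (MvPolynomial.X 1 ^ m) (pow_ne_zero _ t2_prime_y.ne_zero)
  rw [← t2_x_pow, ← t2_y_pow, mul_zero, mul_zero, ← mul_assoc, mul_comm]
  have h1 : a * (Cone.y lam ^ m * Cone.x lam ^ m) = a * (Cone.x lam * Cone.y lam) ^ m := by
    rw [mul_pow]; ring
  rw [h1]
  exact ha

theorem t2_inter (lam : ℂ)
    (Lx : Localization.Away (Cone.x lam) →+* Localization.Away (Cone.x lam * Cone.y lam))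
    (Ly : Localization.Away (Cone.y lam) →+* Localization.Away (Cone.x lam * Cone.y lam))
    (hLx : ∀ a : Cone lam, Lx (algebraMap _ _ a) = algebraMap _ _ a)
    (hLy : ∀ a : Cone lam, Ly (algebraMap _ _ a) = algebraMap _ _ a)
    (u : Localization.Away (Cone.x lam)) (v : Localization.Away (Cone.y lam)) (h : Lx u = Ly v) :
    ∃ a : Cone lam, algebraMap _ _ a = u := by
  obtain ⟨m, c, hc⟩ := IsLocalization.Away.surj (Cone.x lam) u
  obtain ⟨n, c', hc'⟩ := IsLocalization.Away.surj (Cone.y lam) v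
  have h1 := congrArg Lx hc
  have h2 := congrArg Ly hc'
  rw [map_mul, map_pow, hLx, hLx] at h1
  rw [map_mul, map_pow, hLy, hLy, ← h] at h2
  have h3 : algebraMap (Cone lam) (Localization.Away (Cone.x lam * Cone.y lam))
      (Cone.x lam ^ m * c') = algebraMap _ _ (Cone.y lam ^ n * c) := by
    rw [map_mul, map_mul, map_pow, map_pow, ← h1, ← h2]
    ring
  have h4 := t2_inj_xy lam h3
  obtain ⟨e, he⟩ := t2_reg lam m n c' c h4
  refine ⟨e, ?_⟩
  have hu : IsUnit (algebraMap (Cone lam) (Localization.Away (Cone.x lam)) (Cone.x lam) ^ m) :=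
    (IsLocalization.Away.algebraMap_isUnit (Cone.x lam)).pow m
  apply hu.mul_right_cancel
  rw [hc, he, map_mul, map_pow]
  ring

/-- the equation of the cone -/
theorem t2_rel (lam : ℂ) :
    AdjoinRoot.root (conePoly lam) * (AdjoinRoot.root (conePoly lam) *
      AdjoinRoot.root (conePoly lam)) +
      (Cone.x lam * (Cone.x lam * Cone.x lam) + Cone.y lam * (Cone.y lam * Cone.y lam)) =
    algebraMap ℂ (Cone lam) lam * (Cone.x lam * (Cone.y lam * AdjoinRoot.root (conePoly lam))) +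
      (algebraMap ℂ (Cone lam) lam *
          (Cone.x lam * (Cone.y lam * AdjoinRoot.root (conePoly lam))) +
        algebraMap ℂ (Cone lam) lam *
          (Cone.x lam * (Cone.y lam * AdjoinRoot.root (conePoly lam)))) := by
  have h0 : AdjoinRoot.mk (conePoly lam) (conePoly lam) = 0 := AdjoinRoot.mk_self
  have h1 : AdjoinRoot.mk (conePoly lam) (conePoly lam) =
      AdjoinRoot.root (conePoly lam) * (AdjoinRoot.root (conePoly lam) *
        AdjoinRoot.root (conePoly lam)) + algebraMap ℂ (Cone lam) (-(3 * lam)) *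
        (Cone.x lam * (Cone.y lam * AdjoinRoot.root (conePoly lam))) +
        Cone.x lam * (Cone.x lam * Cone.x lam) + Cone.y lam * (Cone.y lam * Cone.y lam) := by
    refine (congrArg (AdjoinRoot.mk (conePoly lam)) (t2_conePoly lam)).trans ?_
    simp only [map_add, map_mul]
    rfl
  rw [h0, map_neg, map_mul, map_ofNat] at h1
  linear_combination -h1

/-- T2: no derivation of `A` with values in `A_x ∩ A_y` extends a derivation `D` of `ℂ` with
`D λ ≠ 0`. -/
theorem cone_no_lift (lam : ℂ) (D : ℂ → ℂ) (hD : D lam ≠ 0)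
    (dx : Cone lam → Localization.Away (Cone.x lam))
    (dy : Cone lam → Localization.Away (Cone.y lam))
    (hxadd : ∀ a b, dx (a + b) = dx a + dx b)
    (hyadd : ∀ a b, dy (a + b) = dy a + dy b)
    (hxmul : ∀ a b, dx (a * b) = algebraMap _ _ a * dx b + algebraMap _ _ b * dx a)
    (hymul : ∀ a b, dy (a * b) = algebraMap _ _ a * dy b + algebraMap _ _ b * dy a)
    (hxC : ∀ c : ℂ, dx (algebraMap ℂ (Cone lam) c) = algebraMap ℂ _ (D c))
    (hyC : ∀ c : ℂ, dy (algebraMap ℂ (Cone lam) c) = algebraMap ℂ _ (D c))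
    (hxy : ∀ a, IsLocalization.Away.lift (Cone.x lam)
        (g := algebraMap (Cone lam) (Localization.Away (Cone.x lam * Cone.y lam)))
        (isUnit_of_mul_isUnit_left (by
          rw [← map_mul]
          exact IsLocalization.Away.algebraMap_isUnit (Cone.x lam * Cone.y lam))) (dx a) =
      IsLocalization.Away.lift (Cone.y lam)
        (g := algebraMap (Cone lam) (Localization.Away (Cone.x lam * Cone.y lam)))
        (isUnit_of_mul_isUnit_right (by
          rw [← map_mul]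
          exact IsLocalization.Away.algebraMap_isUnit (Cone.x lam * Cone.y lam))) (dy a)) :
    False := by
  have hint : ∀ a, ∃ b : Cone lam, algebraMap _ _ b = dx a := fun a =>
    t2_inter lam _ _ (fun b => IsLocalization.Away.lift_eq _ _ b)
      (fun b => IsLocalization.Away.lift_eq _ _ b) _ _ (hxy a)
  obtain ⟨P, hP⟩ := hint (Cone.x lam)
  obtain ⟨Q, hQ⟩ := hint (Cone.y lam)
  obtain ⟨R, hR⟩ := hint (AdjoinRoot.root (conePoly lam))
  have hrel := t2_rel lam
  have h2 := congrArg dx hrel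
  have hdal : dx (algebraMap ℂ (Cone lam) lam) =
      algebraMap (Cone lam) _ (algebraMap ℂ (Cone lam) (D lam)) := by
    rw [hxC]
    exact IsScalarTower.algebraMap_apply ℂ (Cone lam) (Localization.Away (Cone.x lam)) (D lam)
  simp only [hxadd, hxmul, ← hP, ← hQ, ← hR, hdal] at h2
  refine hD (t2_main lam (D lam) P Q R ?_)
  apply t2_inj_x lam
  simp only [map_mul, map_add, map_neg, map_one, map_ofNat] at h2 ⊢
  linear_combination h2

end Pool.Agent.MS9
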