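import Pool.Agent.LibMS9.Lift
import Pool.Agent.LibMS9.T2

/-!
# The punctured cone does not admit a lift
-/

set_option autoImplicit false

open CategoryTheory Limits AlgebraicGeometry Opposite TopologicalSpace

namespace Pool.Agent.MS9

section

variable (lam : ℂ) {B : Type} [CommRing B] (α : Cone lam →+* B)

theorem cone_range (h : IsUnit (α (Cone.x lam)) ∨ IsUnit (α (Cone.y lam))) :
    Set.range (Spec.map (CommRingCat.ofHom α)) ⊆ Set.range (coneOpen lam).ι := by
  rintro _ ⟨p, rfl⟩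
  rw [Scheme.Opens.range_ι]
  rcases h with h | h
  · left
    intro hx
    exact p.2.ne_top (Ideal.eq_top_of_isUnit_mem _ hx h)
  · right
    intro hx
    exact p.2.ne_top (Ideal.eq_top_of_isUnit_mem _ hx h)

/-- The morphism `Spec B ⟶ Z` for a ring homomorphism `A ⟶ B` which maps `x` or `y` to a unit. -/
noncomputable def conePt (h : IsUnit (α (Cone.x lam)) ∨ IsUnit (α (Cone.y lam))) :
    Spec (.of B) ⟶ (coneOpen lam : Scheme.{0}) :=
  IsOpenImmersion.lift (coneOpen lam).ι (Spec.map (CommRingCat.ofHom α)) (cone_range lam α h)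

theorem conePt_ι (h : IsUnit (α (Cone.x lam)) ∨ IsUnit (α (Cone.y lam))) :
    conePt lam α h ≫ (coneOpen lam).ι = Spec.map (CommRingCat.ofHom α) :=
  IsOpenImmersion.lift_fac _ _ _

theorem conePt_hom [Algebra ℂ B] (hα : α.comp (algebraMap ℂ (Cone lam)) = algebraMap ℂ B)
    (h : IsUnit (α (Cone.x lam)) ∨ IsUnit (α (Cone.y lam))) :
    conePt lam α h ≫ (coneOpen lam).ι ≫
      Spec.map (CommRingCat.ofHom (algebraMap ℂ (Cone lam))) =
      Spec.map (CommRingCat.ofHom (algebraMap ℂ B)) := by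
  rw [← Category.assoc, conePt_ι, ← hα, CommRingCat.ofHom_comp, Spec.map_comp]

theorem conePt_map {B' : Type} [CommRing B'] (φ : B →+* B')
    (h : IsUnit (α (Cone.x lam)) ∨ IsUnit (α (Cone.y lam)))
    (α' : Cone lam →+* B') (hα' : φ.comp α = α')
    (h' : IsUnit (α' (Cone.x lam)) ∨ IsUnit (α' (Cone.y lam))) :
    Spec.map (CommRingCat.ofHom φ) ≫ conePt lam α h = conePt lam α' h' := by
  rw [← cancel_mono (coneOpen lam).ι, Category.assoc, conePt_ι, conePt_ι, ← hα',
    CommRingCat.ofHom_comp, Spec.map_comp]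

end

theorem cone_no_psi (lam : ℂ) (τ : ℂ →+* DualNumber ℂ) (hτ : ∀ a, TrivSqZeroExt.fst (τ a) = a)
    (hlam : TrivSqZeroExt.snd (τ lam) ≠ 0) (ψ : twist τ (coneZ lam) ⟶ coneZ lam)
    (hψ : zeroSec τ hτ (coneZ lam) ≫ ψ = 𝟙 _) : False := by
  let ψ₀ : dual (coneZ lam) ⟶ (coneZ lam).left := ψ.left
  let ι : (coneZ lam).left ⟶ Spec (.of (Cone lam)) := (coneOpen lam).ι
  have hψ0 : zeroLeft (coneZ lam) ≫ ψ₀ = 𝟙 _ := zeroLeft_psi τ hτ ψ hψ
  have hψ1 : ψ₀ ≫ (coneZ lam).hom =
      pullback.snd (coneZ lam).hom specInl ≫ Spec.map (CommRingCat.ofHom τ) := psi_hom τ ψ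
  have hι : ι ≫ Spec.map (CommRingCat.ofHom (algebraMap ℂ (Cone lam))) = (coneZ lam).hom := rfl
  let αx : Cone lam →+* Localization.Away (Cone.x lam) := algebraMap _ _
  let αy : Cone lam →+* Localization.Away (Cone.y lam) := algebraMap _ _
  let αxy : Cone lam →+* Localization.Away (Cone.x lam * Cone.y lam) := algebraMap _ _
  have ux : IsUnit (αx (Cone.x lam)) := IsLocalization.Away.algebraMap_isUnit _
  have uy : IsUnit (αy (Cone.y lam)) := IsLocalization.Away.algebraMap_isUnit _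
  have uxy : IsUnit (αxy (Cone.x lam * Cone.y lam)) := IsLocalization.Away.algebraMap_isUnit _
  rw [map_mul] at uxy
  have ux' : IsUnit (αxy (Cone.x lam)) := isUnit_of_mul_isUnit_left uxy
  have uy' : IsUnit (αxy (Cone.y lam)) := isUnit_of_mul_isUnit_right uxy
  have cx : αx.comp (algebraMap ℂ (Cone lam)) = algebraMap ℂ _ :=
    (IsScalarTower.algebraMap_eq _ _ _).symm
  have cy : αy.comp (algebraMap ℂ (Cone lam)) = algebraMap ℂ _ :=
    (IsScalarTower.algebraMap_eq _ _ _).symm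
  have cxy : αxy.comp (algebraMap ℂ (Cone lam)) = algebraMap ℂ _ :=
    (IsScalarTower.algebraMap_eq _ _ _).symm
  let jx : _ ⟶ (coneZ lam).left := conePt lam αx (Or.inl ux)
  let jy : _ ⟶ (coneZ lam).left := conePt lam αy (Or.inr uy)
  let jxy : _ ⟶ (coneZ lam).left := conePt lam αxy (Or.inl ux')
  have hjx : jx ≫ (coneZ lam).hom = _ := conePt_hom lam αx cx (Or.inl ux)
  have hjy : jy ≫ (coneZ lam).hom = _ := conePt_hom lam αy cy (Or.inr uy)
  have hjxy : jxy ≫ (coneZ lam).hom = _ := conePt_hom lam αxy cxy (Or.inl ux')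
  let hx := liftHom ψ₀ ι jx hjx
  let hy := liftHom ψ₀ ι jy hjy
  let hxy := liftHom ψ₀ ι jxy hjxy
  let φx : Localization.Away (Cone.x lam) →+* Localization.Away (Cone.x lam * Cone.y lam) :=
    IsLocalization.Away.lift (Cone.x lam) (g := αxy) ux'
  let φy : Localization.Away (Cone.y lam) →+* Localization.Away (Cone.x lam * Cone.y lam) :=
    IsLocalization.Away.lift (Cone.y lam) (g := αxy) uy'
  have eφx : φx.comp αx = αxy := IsLocalization.Away.lift_comp _ _
  have eφy : φy.comp αy = αxy := IsLocalization.Away.lift_comp _ _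
  have e1 : (dualMap φx).comp hx = hxy :=
    liftHom_map ψ₀ ι jx hjx jxy hjxy φx (by rw [← cx, ← RingHom.comp_assoc, eφx, cxy])
      (conePt_map lam αx φx _ αxy eφx _)
  have e2 : (dualMap φy).comp hy = hxy :=
    liftHom_map ψ₀ ι jy hjy jxy hjxy φy (by rw [← cy, ← RingHom.comp_assoc, eφy, cxy])
      (conePt_map lam αy φy _ αxy eφy _)
  have fx : (dualFst _).comp hx = αx := liftHom_fst ψ₀ ι jx hjx hψ0 αx (conePt_ι _ _ _)
  have fy : (dualFst _).comp hy = αy := liftHom_fst ψ₀ ι jy hjy hψ0 αy (conePt_ι _ _ _)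
  have gx := liftHom_algebraMap ψ₀ ι jx hjx τ hψ1 hι
  have gy := liftHom_algebraMap ψ₀ ι jy hjy τ hψ1 hι
  have fx' : ∀ a, TrivSqZeroExt.fst (hx a) = αx a := fun a => congrArg (fun k => k a) fx
  have fy' : ∀ a, TrivSqZeroExt.fst (hy a) = αy a := fun a => congrArg (fun k => k a) fy
  have gx' : ∀ c, hx (algebraMap ℂ _ c) = dualMap (algebraMap ℂ _) (τ c) :=
    fun c => congrArg (fun k => k c) gx
  have gy' : ∀ c, hy (algebraMap ℂ _ c) = dualMap (algebraMap ℂ _) (τ c) :=
    fun c => congrArg (fun k => k c) gy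
  refine cone_no_lift lam (fun c => TrivSqZeroExt.snd (τ c)) hlam
    (fun a => TrivSqZeroExt.snd (hx a)) (fun a => TrivSqZeroExt.snd (hy a)) ?_ ?_ ?_ ?_ ?_ ?_ ?_
  · intro a b
    simp
  · intro a b
    simp
  · intro a b
    rw [map_mul, TrivSqZeroExt.snd_mul, fx', fx']
    simp only [smul_eq_mul, MulOpposite.smul_eq_mul_unop, MulOpposite.unop_op, αx]
    rw [mul_comm (TrivSqZeroExt.snd (hx a))]
  · intro a b
    rw [map_mul, TrivSqZeroExt.snd_mul, fy', fy']
    simp only [smul_eq_mul, MulOpposite.smul_eq_mul_unop, MulOpposite.unop_op, αy]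
    rw [mul_comm (TrivSqZeroExt.snd (hy a))]
  · intro c
    rw [gx', snd_dualMap]
  · intro c
    rw [gy', snd_dualMap]
  · intro a
    have h3 : dualMap φx (hx a) = dualMap φy (hy a) := by
      have h4 : (dualMap φx).comp hx = (dualMap φy).comp hy := e1.trans e2.symm
      exact congrArg (fun k => k a) h4
    have h5 := congrArg TrivSqZeroExt.snd h3
    rw [snd_dualMap, snd_dualMap] at h5
    exact h5

end Pool.Agent.MS9
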