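import Mathlib

/-!
# The cone over a plane cubic: definitions
-/

set_option autoImplicit false

open CategoryTheory Limits AlgebraicGeometry Opposite TopologicalSpace

namespace Pool.Agent.MS9

/-- The polynomial `z³ - 3λxy z + (x³ + y³)` in `z` over `ℂ[x, y]` (`x = X 0`, `y = X 1`). -/
noncomputable def conePoly (lam : ℂ) : Polynomial (MvPolynomial (Fin 2) ℂ) :=
  Polynomial.X ^ 3 - Polynomial.C (MvPolynomial.C (3 * lam) * MvPolynomial.X 0 * MvPolynomial.X 1) *
    Polynomial.X + Polynomial.C (MvPolynomial.X 0 ^ 3 + MvPolynomial.X 1 ^ 3)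

/-- The ring `ℂ[x, y, z] / (x³ + y³ + z³ - 3λxyz)`. -/
abbrev Cone (lam : ℂ) : Type := AdjoinRoot (conePoly lam)

namespace Cone

/-- The coordinate `x`. -/
noncomputable def x (lam : ℂ) : Cone lam := AdjoinRoot.of _ (MvPolynomial.X 0)

/-- The coordinate `y`. -/
noncomputable def y (lam : ℂ) : Cone lam := AdjoinRoot.of _ (MvPolynomial.X 1)

end Cone

/-- The cone over the plane cubic `x³ + y³ + z³ = 3λxyz`, an affine scheme over `ℂ`. -/
noncomputable abbrev coneSpec (lam : ℂ) : Scheme.{0} := Spec (.of (Cone lam))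

/-- The cone without its vertex: the open subscheme `D(x) ∪ D(y)` of the cone. -/
noncomputable def coneOpen (lam : ℂ) : (coneSpec lam).Opens :=
  PrimeSpectrum.basicOpen (Cone.x lam) ⊔ PrimeSpectrum.basicOpen (Cone.y lam)

/-- The cone without its vertex, as a `ℂ`-scheme. -/
noncomputable def coneZ (lam : ℂ) : Over (Spec (.of ℂ) : Scheme.{0}) :=
  Over.mk ((coneOpen lam).ι ≫ Spec.map (CommRingCat.ofHom (algebraMap ℂ (Cone lam))))

end Pool.Agent.MS9
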