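import Mathlib

/-!
# Moduli stacks of polarized manifolds

Definitions for MP_70d7ca_ag.
-/

set_option autoImplicit false

open CategoryTheory Limits AlgebraicGeometry Opposite

namespace Pool.Agent.MS9

/-! ## Invertible sheaves and ampleness -/

/-- The invertible sheaves on `X`: the `𝒪_X`-modules which are locally isomorphic to `𝒪_X`. -/
def IsInvertible {X : Scheme.{0}} (L : X.Modules) : Prop :=
  ∀ x : X, ∃ U : X.Opens, x ∈ U ∧
    Nonempty (L.restrict U.ι ≅ SheafOfModules.unit (U : Scheme.{0}).ringCatSheaf)

/-- The section `s` of `L` over `U` generates `L` freely over `U`. -/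
def IsGenerator {X : Scheme.{0}} (L : X.Modules) (U : X.Opens) (s : Γ(L, U)) : Prop :=
  ∀ (V : X.Opens) (h : V ≤ U),
    Function.Bijective (fun a : Γ(X, V) => a • (L.presheaf.map (homOfLE h).op s))

/-- A morphism `s ↦ s ⊗ ⋯ ⊗ s` which makes `N` the `n`-th tensor power of the invertible sheaf
`L`: a map of sheaves of sets, homogeneous of degree `n`, which maps local generators to local
generators. -/
structure PowerMap {X : Scheme.{0}} (n : ℕ) (L N : X.Modules) where
  toFun : ∀ U : X.Opens, Γ(L, U) → Γ(N, U)
  map_res : ∀ {U V : X.Opens} (h : V ≤ U) (s : Γ(L, U)),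
    toFun V (L.presheaf.map (homOfLE h).op s) = N.presheaf.map (homOfLE h).op (toFun U s)
  map_smul : ∀ (U : X.Opens) (a : Γ(X, U)) (s : Γ(L, U)), toFun U (a • s) = a ^ n • toFun U s
  map_gen : ∀ (U : X.Opens) (s : Γ(L, U)), IsGenerator L U s → IsGenerator N U (toFun U s)

/-- The set `X_t` of the points of `X` near which the section `t` generates `N`. -/
def nonvanishing {X : Scheme.{0}} (N : X.Modules) (t : Γ(N, (⊤ : X.Opens))) : Set X :=
  {x | ∃ V : X.Opens, x ∈ V ∧ IsGenerator N V (N.presheaf.map (homOfLE le_top).op t)}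

/-- The invertible sheaf `L` on `X` is ample: `X` is quasi-compact and is covered by the open sets
`X_t`, `t` a section of some power `L^⊗n`, `n ≥ 1`, which are affine (EGA II, 4.5.2). -/
def IsAmple {X : Scheme.{0}} (L : X.Modules) : Prop :=
  CompactSpace X ∧ ∀ x : X, ∃ (n : ℕ) (N : X.Modules) (_ : PowerMap n L N)
    (t : Γ(N, (⊤ : X.Opens))) (U : X.Opens), 1 ≤ n ∧ x ∈ U ∧ IsAffineOpen U ∧
      (U : Set X) = nonvanishing N t

/-! ## Polarized manifolds -/

/-- A pair `(F, H)`: a scheme `F` over the field `Ω` with a sheaf of modules `H`. -/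
structure PolPair (Ω : Type) [Field Ω] where
  F : Scheme.{0}
  π : F ⟶ Spec (.of Ω)
  H : F.Modules

/-- The pair `(F, H)` over the algebraically closed field `Ω` is a polarized manifold: `F` is a
connected smooth projective variety (smooth, proper and with an ample sheaf) and `H` is an ample
invertible sheaf on `F`. -/
def PolPair.IsPolarizedManifold {Ω : Type} [Field Ω] (P : PolPair Ω) : Prop :=
  Smooth P.π ∧ IsProper P.π ∧ ConnectedSpace P.F ∧ IsInvertible P.H ∧ IsAmple P.H

/-- Isomorphism of pairs. -/
def PolPair.Iso {Ω : Type} [Field Ω] (P P' : PolPair Ω) : Prop :=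
  ∃ e : P.F ≅ P'.F, e.hom ≫ P'.π = P.π ∧ Nonempty ((Scheme.Modules.pullback e.hom).obj P'.H ≅ P.H)

/-- A class `𝒞` of polarized manifolds, closed under isomorphism. It consists of polarized
manifolds over `ℂ` and over the algebraically closed extension fields `Ω` of `ℂ`, so that the
condition that every geometric fibre is in `𝒞` makes sense for all geometric points. (If the
members over `Ω ≠ ℂ` are all polarized manifolds, only the condition on the fibres at the
`ℂ`-points remains.) -/
structure PolClass where
  mem : ∀ (Ω : Type) [Field Ω] [Algebra ℂ Ω] [IsAlgClosed Ω], PolPair Ω → Prop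
  isPolarized : ∀ (Ω : Type) [Field Ω] [Algebra ℂ Ω] [IsAlgClosed Ω] (P : PolPair Ω),
    mem Ω P → P.IsPolarizedManifold
  iso : ∀ (Ω : Type) [Field Ω] [Algebra ℂ Ω] [IsAlgClosed Ω] (P P' : PolPair Ω),
    P.Iso P' → mem Ω P → mem Ω P'

/-! ## Families -/

/-- The category of `ℂ`-schemes. -/
abbrev SchC : Type 1 := Over (Spec (.of ℂ) : Scheme.{0})

/-- The fibre of the pair `(f : X ⟶ S, L)` at the point `s : Spec Ω ⟶ S`. -/
noncomputable def fibre {X S : Scheme.{0}} (f : X ⟶ S) (L : X.Modules) {Ω : Type} [Field Ω]
    (s : Spec (.of Ω) ⟶ S) : PolPair Ω :=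
  ⟨pullback f s, pullback.snd f s, (Scheme.Modules.pullback (pullback.fst f s)).obj L⟩

/-- The conventions in the definition of the moduli stacks. The theorems hold for all of them. -/
structure Conventions where
  /-- The `ℂ`-schemes over which the stacks are considered. For example all `ℂ`-schemes, or the
  locally noetherian ones, or those of finite type. -/
  base : ObjectProperty SchC
  base_of_finiteType : ∀ S : SchC, LocallyOfFiniteType S.hom → QuasiCompact S.hom → base S
  /-- A condition on the families `(f : X ⟶ S, L)`, stable under base change. For example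
  that `f` is projective (in any sense) and that `L` is `f`-ample, or no condition. -/
  cond : ∀ {X S : Scheme.{0}}, (X ⟶ S) → X.Modules → Prop
  cond_baseChange : ∀ {X S X' S' : Scheme.{0}} (f : X ⟶ S) (f' : X' ⟶ S') (g : X' ⟶ X)
    (φ : S' ⟶ S) (L : X.Modules), IsPullback g f' f φ → cond f L →
      cond f' ((Scheme.Modules.pullback g).obj L)
  /-- The relation between two modules `L, L'` on `X`, `f : X ⟶ S`, in the definition of the
  morphisms of families: `L` is isomorphic to `L' ⊗ f^* B` for an invertible sheaf `B` on `S`; or,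
  which is the same if `f_* 𝒪_X = 𝒪_S`, the relation `LocIso` below. -/
  rel : ∀ {X S : Scheme.{0}}, (X ⟶ S) → X.Modules → X.Modules → Prop
  rel_of_iso : ∀ {X S : Scheme.{0}} (f : X ⟶ S) {L L' : X.Modules}, (L ≅ L') → rel f L L'
  rel_trans : ∀ {X S : Scheme.{0}} (f : X ⟶ S) {L L' L'' : X.Modules}, rel f L L' →
    rel f L' L'' → rel f L L''
  rel_baseChange : ∀ {X S X' S' : Scheme.{0}} (f : X ⟶ S) (f' : X' ⟶ S') (g : X' ⟶ X)
    (φ : S' ⟶ S) {L L' : X.Modules}, IsPullback g f' f φ → rel f L L' →
      rel f' ((Scheme.Modules.pullback g).obj L) ((Scheme.Modules.pullback g).obj L')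

/-- The modules `M` and `N` on `X` are isomorphic locally on `S`, `f : X ⟶ S`. If `f` is a
family of polarized manifolds and `M`, `N` are invertible, then (as `f_* 𝒪_X = 𝒪_S`) this means
that `M ≅ N ⊗ f^* B` for an invertible sheaf `B` on `S`. -/
def LocIso {X S : Scheme.{0}} (f : X ⟶ S) (M N : X.Modules) : Prop :=
  ∀ s : S, ∃ V : S.Opens, s ∈ V ∧ Nonempty (M.restrict (f ⁻¹ᵁ V).ι ≅ N.restrict (f ⁻¹ᵁ V).ι)

/-- The objects of the moduli stack `𝓜_𝒞` over the `ℂ`-schemes `S`: the families
`(f : X ⟶ S, L)` of polarized manifolds in `𝒞`. Here `f` is smooth and proper, `L` is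
invertible, all geometric fibres are in `𝒞`, and the additional condition `K.cond` holds. (As the
restrictions of `L` to the geometric fibres are ample, `L` is `f`-ample and `f` is locally on `S`
projective, EGA IV 9.6.4.) -/
structure Fam (K : Conventions) (C : PolClass) where
  S : SchC
  hS : K.base S
  X : Scheme.{0}
  f : X ⟶ S.left
  L : X.Modules
  smooth : Smooth f
  proper : IsProper f
  invertible : IsInvertible L
  cond : K.cond f L
  fibres : ∀ (Ω : Type) [Field Ω] [Algebra ℂ Ω] [IsAlgClosed Ω] (s : Spec (.of Ω) ⟶ S.left),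
    s ≫ S.hom = Spec.map (CommRingCat.ofHom (algebraMap ℂ Ω)) → C.mem Ω (fibre f L s)

namespace Fam

variable {K : Conventions} {C : PolClass}

/-- The morphisms from `(f', L')` over `S'` to `(f, L)` over `S`: a morphism of `ℂ`-schemes
`S' ⟶ S` with an isomorphism of `X'` with the base change of `X` (that is, a morphism
`g : X' ⟶ X` which makes the square cartesian) such that `g^* L` and `L'` are related by
`K.rel`, that is, `g^* L ≅ L' ⊗ f'^* B` for an invertible sheaf `B` on `S'`. -/
@[ext]
structure Hom (a b : Fam K C) where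
  base : a.S ⟶ b.S
  g : a.X ⟶ b.X
  cart : IsPullback g a.f b.f base.left
  rel : K.rel a.f ((Scheme.Modules.pullback g).obj b.L) a.L

/-- The identity. -/
noncomputable def Hom.id (a : Fam K C) : Hom a a where
  base := 𝟙 _
  g := 𝟙 _
  cart := by
    rw [Over.id_left]
    exact IsPullback.of_horiz_isIso ⟨by simp⟩
  rel := K.rel_of_iso _ ((Scheme.Modules.pullbackId _).app _)

/-- The composition. -/
noncomputable def Hom.comp {a b c : Fam K C} (u : Hom a b) (v : Hom b c) : Hom a c where
  base := u.base ≫ v.base
  g := u.g ≫ v.g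
  cart := by
    rw [Over.comp_left]
    exact u.cart.paste_horiz v.cart
  rel := K.rel_trans _ (K.rel_trans _
    (K.rel_of_iso _ ((Scheme.Modules.pullbackComp u.g v.g).symm.app c.L))
    (K.rel_baseChange _ _ _ _ u.cart v.rel)) u.rel

noncomputable instance : Category (Fam K C) where
  Hom := Hom
  id := Hom.id
  comp := Hom.comp
  id_comp _ := Hom.ext (Category.id_comp _) (Category.id_comp _)
  comp_id _ := Hom.ext (Category.comp_id _) (Category.comp_id _)
  assoc _ _ _ := Hom.ext (Category.assoc _ _ _) (Category.assoc _ _ _)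

variable (K C) in
/-- The structure functor of the moduli stack: `(f : X ⟶ S, L) ↦ S`. -/
noncomputable def proj : Fam K C ⥤ SchC where
  obj a := a.S
  map u := u.base
  map_id _ := rfl
  map_comp _ _ := rfl

end Fam

end Pool.Agent.MS9
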