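import Mathlib

/-!
For `lam` transcendental over `ℚ` there is a ring homomorphism `τ : ℂ → ℂ[ε]` lifting the identity
with `τ lam = lam + ε`.
-/

set_option autoImplicit false

open Polynomial

namespace Pool.Agent.MS9

/-- lifting along a surjection with nilpotent kernel, in terms of ring homomorphisms -/
theorem t1_lift {K L B : Type} [Field K] [Field L] [Algebra K L] [Algebra.FormallySmooth K L]
    [CommRing B] (G : K →+* B) (π : B →+* L) (hπ : Function.Surjective π)
    (hn : IsNilpotent (RingHom.ker π)) (hG : ∀ k, π (G k) = algebraMap K L k) :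
    ∃ τ : L →+* B, (∀ a, π (τ a) = a) ∧ ∀ k, τ (algebraMap K L k) = G k := by
  let _ : Algebra K B := G.toAlgebra
  let πA : B →ₐ[K] L := { π with commutes' := hG }
  let τ : L →ₐ[K] B := Algebra.FormallySmooth.liftOfSurjective (AlgHom.id K L) πA hπ hn
  refine ⟨τ.toRingHom, fun a => ?_, fun k => ?_⟩
  · exact Algebra.FormallySmooth.liftOfSurjective_apply (AlgHom.id K L) πA hπ hn a
  · exact τ.commutes k

/-- in characteristic zero every field extension is formally smooth -/
theorem t1_smooth (K L : Type) [Field K] [Field L] [Algebra K L] [CharZero K] :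
    Algebra.FormallySmooth K L := by
  obtain ⟨s, hs⟩ := exists_isTranscendenceBasis K L
  have h1 : Algebra.IsAlgebraic (IntermediateField.adjoin K (Set.range ((↑) : s → L))) L :=
    hs.isAlgebraic_field
  have h2 : Algebra.IsSeparable (IntermediateField.adjoin K (Set.range ((↑) : s → L))) L :=
    inferInstance
  exact Algebra.FormallySmooth.of_algebraicIndependent_of_isSeparable hs.1

theorem t1_nilpotent {B L : Type} [CommRing B] [CommRing L] (π : B →+* L)
    (h : ∀ r s, π r = 0 → π s = 0 → r * s = 0) : IsNilpotent (RingHom.ker π) := by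
  refine ⟨2, ?_⟩
  rw [pow_two, Ideal.zero_eq_bot, ← le_bot_iff, Ideal.mul_le]
  intro r hr s hs
  rw [Ideal.mem_bot]
  exact h r s hr hs

theorem t1_mul (r s : DualNumber ℂ) (hr : r.fst = 0) (hs : s.fst = 0) : r * s = 0 := by
  ext
  · rw [TrivSqZeroExt.fst_mul, hr, zero_mul, TrivSqZeroExt.fst_zero]
  · rw [TrivSqZeroExt.snd_mul, hr, hs]
    simp

/-- T1 -/
theorem exists_twist (lam : ℂ) (h : Transcendental ℚ lam) :
    ∃ τ : ℂ →+* DualNumber ℂ, (∀ a, TrivSqZeroExt.fst (τ a) = a) ∧
      TrivSqZeroExt.snd (τ lam) = 1 := by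
  let f : ℚ[X] →+* ℂ := (aeval lam).toRingHom
  have hf : Function.Injective f := transcendental_iff_injective.1 h
  let g : ℚ[X] →+* DualNumber ℂ :=
    (aeval (TrivSqZeroExt.inl lam + DualNumber.eps : DualNumber ℂ)).toRingHom
  have hfg : ∀ p, (g p).fst = f p := by
    intro p
    have h1 : ((TrivSqZeroExt.fstHom ℂ ℂ ℂ).toRingHom.comp g) = f := by
      apply Polynomial.ringHom_ext
      · intro a
        show (g (C a)).fst = f (C a)
        simp only [g, f, AlgHom.toRingHom_eq_coe, RingHom.coe_coe, aeval_C]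
        rfl
      · show (g X).fst = f X
        simp only [g, f, AlgHom.toRingHom_eq_coe, RingHom.coe_coe, aeval_X]
        simp
    exact RingHom.congr_fun h1 p
  have hF : ∀ y : nonZeroDivisors ℚ[X], IsUnit (f y) := by
    intro y
    have : f y ≠ 0 := by
      intro h0
      exact nonZeroDivisors.coe_ne_zero y (hf (by rw [h0, map_zero]))
    exact IsUnit.mk0 _ this
  have hg : ∀ y : nonZeroDivisors ℚ[X], IsUnit (g y) := by
    intro y
    rw [TrivSqZeroExt.isUnit_iff_isUnit_fst, hfg]
    exact hF y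
  let F : FractionRing ℚ[X] →+* ℂ := IsLocalization.lift hF
  let G : FractionRing ℚ[X] →+* DualNumber ℂ := IsLocalization.lift hg
  have hFG : ∀ k, (G k).fst = F k := by
    intro k
    have h1 : (TrivSqZeroExt.fstHom ℂ ℂ ℂ).toRingHom.comp G = F := by
      apply IsLocalization.ringHom_ext (nonZeroDivisors ℚ[X])
      refine RingHom.ext fun p => ?_
      show (G (algebraMap _ _ p)).fst = F (algebraMap _ _ p)
      simp only [G, F, IsLocalization.lift_eq]
      exact hfg p
    exact RingHom.congr_fun h1 k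
  let _ : Algebra (FractionRing ℚ[X]) ℂ := F.toAlgebra
  have : CharZero (FractionRing ℚ[X]) := inferInstance
  have := t1_smooth (FractionRing ℚ[X]) ℂ
  obtain ⟨τ, h1, h2⟩ := t1_lift (K := FractionRing ℚ[X]) (L := ℂ) G
    (TrivSqZeroExt.fstHom ℂ ℂ ℂ).toRingHom
    (fun a => ⟨TrivSqZeroExt.inl a, rfl⟩) (t1_nilpotent _ t1_mul) hFG
  refine ⟨τ, h1, ?_⟩
  have h3 := h2 (algebraMap ℚ[X] (FractionRing ℚ[X]) X)
  have h4 : algebraMap (FractionRing ℚ[X]) ℂ (algebraMap ℚ[X] (FractionRing ℚ[X]) X) = lam := by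
    show F (algebraMap ℚ[X] (FractionRing ℚ[X]) X) = lam
    simp only [F, IsLocalization.lift_eq]
    simp [f]
  rw [h4] at h3
  rw [h3]
  simp only [G, IsLocalization.lift_eq]
  simp [g]

end Pool.Agent.MS9
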