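import Pool.Agent.LibMS9.T3a

/-!
T3: the cone without its vertex is smooth.
-/

set_option autoImplicit false

open CategoryTheory Limits AlgebraicGeometry Opposite TopologicalSpace

namespace Pool.Agent.MS9

/-- the partial derivatives (divided by three) -/
noncomputable def t3_G (lam : ℂ) : Fin 3 → Cone lam :=
  ![Cone.x lam ^ 2 - algebraMap ℂ _ lam * Cone.y lam * AdjoinRoot.root (conePoly lam),
    Cone.y lam ^ 2 - algebraMap ℂ _ lam * Cone.x lam * AdjoinRoot.root (conePoly lam),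
    AdjoinRoot.root (conePoly lam) ^ 2 - algebraMap ℂ _ lam * Cone.x lam * Cone.y lam]

theorem t3_G_smooth (lam : ℂ) (i : Fin 3) : Algebra.Smooth ℂ (Localization.Away (t3_G lam i)) := by
  apply t3_smooth
  fin_cases i
  · exact Or.inl rfl
  · exact Or.inr (Or.inl rfl)
  · exact Or.inr (Or.inr rfl)

theorem t3_cover (lam : ℂ) (h : lam ^ 3 ≠ 1) (p : Ideal (Cone lam)) (hp : p.IsPrime)
    (hG : ∀ i, t3_G lam i ∈ p) : Cone.x lam ∈ p ∧ Cone.y lam ∈ p := by
  have hu : IsUnit (1 - algebraMap ℂ (Cone lam) lam ^ 3) := by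
    have h1 : (1 - algebraMap ℂ (Cone lam) lam ^ 3) = algebraMap ℂ (Cone lam) (1 - lam ^ 3) := by
      rw [map_sub, map_one, map_pow]
    rw [h1]
    exact (IsUnit.mk0 _ (sub_ne_zero.2 (Ne.symm h))).map _
  have h0 : Cone.x lam ^ 2 - algebraMap ℂ _ lam * Cone.y lam * AdjoinRoot.root (conePoly lam) ∈ p :=
    hG 0
  have h1 : Cone.y lam ^ 2 - algebraMap ℂ _ lam * Cone.x lam * AdjoinRoot.root (conePoly lam) ∈ p :=
    hG 1
  have h2 : AdjoinRoot.root (conePoly lam) ^ 2 - algebraMap ℂ _ lam * Cone.x lam * Cone.y lam ∈ p :=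
    hG 2
  generalize Cone.x lam = x at *
  generalize Cone.y lam = y at *
  generalize AdjoinRoot.root (conePoly lam) = z at *
  generalize algebraMap ℂ (Cone lam) lam = l at *
  constructor
  · have h3 : (1 - l ^ 3) * x ^ 4 ∈ p := by
      have h4 : (1 - l ^ 3) * x ^ 4 = (x ^ 2 + l * y * z - l ^ 3 * x ^ 2) * (x ^ 2 - l * y * z) +
          (l ^ 2 * z ^ 2) * (y ^ 2 - l * x * z) + (l ^ 3 * x * z) * (z ^ 2 - l * x * y) := by ring
      rw [h4]
      exact p.add_mem (p.add_mem (p.mul_mem_left _ h0) (p.mul_mem_left _ h1))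
        (p.mul_mem_left _ h2)
    rcases hp.mem_or_mem h3 with h5 | h5
    · exact absurd (Ideal.eq_top_of_isUnit_mem _ h5 hu) hp.ne_top
    · exact hp.mem_of_pow_mem _ h5
  · have h3 : (1 - l ^ 3) * y ^ 4 ∈ p := by
      have h4 : (1 - l ^ 3) * y ^ 4 = (y ^ 2 + l * x * z - l ^ 3 * y ^ 2) * (y ^ 2 - l * x * z) +
          (l ^ 2 * z ^ 2) * (x ^ 2 - l * y * z) + (l ^ 3 * y * z) * (z ^ 2 - l * x * y) := by ring
      rw [h4]
      exact p.add_mem (p.add_mem (p.mul_mem_left _ h1) (p.mul_mem_left _ h0))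
        (p.mul_mem_left _ h2)
    rcases hp.mem_or_mem h3 with h5 | h5
    · exact absurd (Ideal.eq_top_of_isUnit_mem _ h5 hu) hp.ne_top
    · exact hp.mem_of_pow_mem _ h5

theorem t3_vertex (lam : ℂ) (p : Ideal (Cone lam)) (hp : p.IsPrime) (hx : Cone.x lam ∈ p)
    (hy : Cone.y lam ∈ p) (i : Fin 3) : t3_G lam i ∈ p := by
  have hz : AdjoinRoot.root (conePoly lam) ∈ p := by
    have h1 : AdjoinRoot.root (conePoly lam) ^ 3 ∈ p := by
      have h2 : AdjoinRoot.root (conePoly lam) ^ 3 =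
          (3 * algebraMap ℂ (Cone lam) lam * Cone.y lam * AdjoinRoot.root (conePoly lam) -
            Cone.x lam ^ 2) * Cone.x lam + (-Cone.y lam ^ 2) * Cone.y lam := by
        linear_combination t2_rel lam
      rw [h2]
      exact p.add_mem (p.mul_mem_left _ hx) (p.mul_mem_left _ hy)
    exact hp.mem_of_pow_mem _ h1
  fin_cases i
  · exact p.sub_mem (Ideal.pow_mem_of_mem p hx 2 (by norm_num)) (p.mul_mem_left _ hz)
  · exact p.sub_mem (Ideal.pow_mem_of_mem p hy 2 (by norm_num)) (p.mul_mem_left _ hz)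
  · exact p.sub_mem (Ideal.pow_mem_of_mem p hz 2 (by norm_num)) (p.mul_mem_left _ hy)

theorem t3_mem (lam : ℂ) (p : PrimeSpectrum (Cone lam)) :
    p ∈ (PrimeSpectrum.basicOpen (Cone.x lam) ⊔ PrimeSpectrum.basicOpen (Cone.y lam)) ↔
      ¬ (Cone.x lam ∈ p.asIdeal ∧ Cone.y lam ∈ p.asIdeal) := by
  rw [TopologicalSpace.Opens.mem_sup, PrimeSpectrum.mem_basicOpen, PrimeSpectrum.mem_basicOpen]
  tauto

/-- the localization morphism -/
noncomputable abbrev t3_loc (lam : ℂ) (i : Fin 3) :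
    Spec (.of (Localization.Away (t3_G lam i))) ⟶ coneSpec lam :=
  Spec.map (CommRingCat.ofHom (algebraMap (Cone lam) (Localization.Away (t3_G lam i))))

theorem t3_range (lam : ℂ) (i : Fin 3) :
    Set.range (t3_loc lam i) = {p : PrimeSpectrum (Cone lam) | t3_G lam i ∉ p.asIdeal} := by
  have h := PrimeSpectrum.localization_away_comap_range (Localization.Away (t3_G lam i))
    (t3_G lam i)
  exact h

/-- the chart -/
noncomputable def t3_j (lam : ℂ) (i : Fin 3) :
    Spec (.of (Localization.Away (t3_G lam i))) ⟶ (coneOpen lam).toScheme :=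
  IsOpenImmersion.lift (coneOpen lam).ι (t3_loc lam i) (by
    rw [Scheme.Opens.range_ι, t3_range]
    intro p hp
    refine (t3_mem lam p).2 ?_
    rintro ⟨hx, hy⟩
    exact hp (t3_vertex lam p.asIdeal p.isPrime hx hy i))

theorem t3_j_ι (lam : ℂ) (i : Fin 3) : t3_j lam i ≫ (coneOpen lam).ι = t3_loc lam i :=
  IsOpenImmersion.lift_fac _ _ _

instance t3_j_open (lam : ℂ) (i : Fin 3) : IsOpenImmersion (t3_j lam i) := by
  have h : IsOpenImmersion (t3_j lam i ≫ (coneOpen lam).ι) := by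
    rw [t3_j_ι]
    infer_instance
  exact IsOpenImmersion.of_comp (t3_j lam i) (coneOpen lam).ι

/-- T3: the cone without its vertex is smooth. -/
theorem coneOpen_smooth (lam : ℂ) (h : lam ^ 3 ≠ 1) :
    Smooth ((coneOpen lam).ι ≫ Spec.map (CommRingCat.ofHom (algebraMap ℂ (Cone lam)))) := by
  have hcov : ∀ x : (coneOpen lam).toScheme, ∃ (i : Fin 3)
      (y : Spec (.of (Localization.Away (t3_G lam i)))), t3_j lam i y = x := by
    intro x
    have hx : (coneOpen lam).ι x ∈ coneOpen lam := x.2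
    obtain ⟨i, hi⟩ : ∃ i, t3_G lam i ∉ ((coneOpen lam).ι x : PrimeSpectrum (Cone lam)).asIdeal := by
      by_contra hall
      push Not at hall
      exact (t3_mem lam _).1 hx
        (t3_cover lam h _ ((coneOpen lam).ι x : PrimeSpectrum (Cone lam)).isPrime hall)
    have hr : (coneOpen lam).ι x ∈ Set.range (t3_loc lam i) := by
      rw [t3_range]
      exact hi
    obtain ⟨y, hy⟩ := hr
    refine ⟨i, y, ?_⟩
    apply (coneOpen lam).ι.isOpenEmbedding.injective
    rw [← hy, ← t3_j_ι]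
    rfl
  have h3 : ∀ i : Fin 3, Smooth (t3_j lam i ≫ (coneOpen lam).ι ≫
      Spec.map (CommRingCat.ofHom (algebraMap ℂ (Cone lam)))) := by
    intro i
    have h1 : t3_j lam i ≫ (coneOpen lam).ι ≫
        Spec.map (CommRingCat.ofHom (algebraMap ℂ (Cone lam))) =
        Spec.map (CommRingCat.ofHom (algebraMap ℂ (Localization.Away (t3_G lam i)))) := by
      rw [← Category.assoc, t3_j_ι, ← Spec.map_comp, ← CommRingCat.ofHom_comp]
    rw [h1, HasRingHomProperty.Spec_iff (P := @Smooth)]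
    exact (RingHom.smooth_algebraMap).2 (t3_G_smooth lam i)
  let 𝒰 : (coneOpen lam).toScheme.OpenCover :=
    Scheme.Cover.mkOfCovers (Fin 3) (fun i => Spec (.of (Localization.Away (t3_G lam i))))
      (t3_j lam) hcov (fun i => t3_j_open lam i)
  exact IsZariskiLocalAtSource.of_openCover (P := @Smooth) 𝒰 h3

end Pool.Agent.MS9
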