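import Pool.Agent.LibMS9.Cone
import Pool.Agent.LibMS9.T1
import Pool.Agent.LibMS9.T3

/-!
# Finiteness properties
-/

set_option autoImplicit false

open CategoryTheory Limits AlgebraicGeometry Opposite TopologicalSpace

namespace Pool.Agent.MS9

/-- The automorphism `a + b ε ↦ τ(a) + b ε` of `ℂ[ε]`. -/
noncomputable def twistAut (τ : ℂ →+* DualNumber ℂ) (hτ : ∀ a, TrivSqZeroExt.fst (τ a) = a) :
    DualNumber ℂ →+* DualNumber ℂ where
  toFun a := τ (TrivSqZeroExt.fst a) + TrivSqZeroExt.inr (TrivSqZeroExt.snd a)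
  map_one' := by simp
  map_zero' := by simp
  map_add' a b := by
    ext
    · simp
    · simp
      ring
  map_mul' a b := by
    ext
    · simp [hτ]
    · simp [hτ]
      ring

theorem twistAut_surjective (τ : ℂ →+* DualNumber ℂ) (hτ : ∀ a, TrivSqZeroExt.fst (τ a) = a) :
    Function.Surjective (twistAut τ hτ) := by
  intro a
  refine ⟨TrivSqZeroExt.inl (TrivSqZeroExt.fst a) +
    TrivSqZeroExt.inr (TrivSqZeroExt.snd a - TrivSqZeroExt.snd (τ (TrivSqZeroExt.fst a))), ?_⟩
  ext <;> simp [twistAut, hτ]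

theorem tau_finiteType (τ : ℂ →+* DualNumber ℂ) (hτ : ∀ a, TrivSqZeroExt.fst (τ a) = a) :
    τ.FiniteType := by
  have h1 : (algebraMap ℂ (DualNumber ℂ)).Finite := by
    have : Module.Finite ℂ (DualNumber ℂ) := inferInstanceAs (Module.Finite ℂ (ℂ × ℂ))
    exact RingHom.finite_algebraMap.2 this
  have h2 : ((twistAut τ hτ).comp (algebraMap ℂ (DualNumber ℂ))).FiniteType :=
    h1.finiteType.comp_surjective (twistAut_surjective τ hτ)
  have h3 : (twistAut τ hτ).comp (algebraMap ℂ (DualNumber ℂ)) = τ := by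
    ext a <;> simp [twistAut, TrivSqZeroExt.algebraMap_eq_inl]
  rwa [h3] at h2

theorem twist_locallyOfFiniteType (τ : ℂ →+* DualNumber ℂ)
    (hτ : ∀ a, TrivSqZeroExt.fst (τ a) = a) (Z : SchC) (h : LocallyOfFiniteType Z.hom) :
    LocallyOfFiniteType (twist τ Z).hom := by
  have h1 : LocallyOfFiniteType (Spec.map (CommRingCat.ofHom τ)) := by
    rw [HasRingHomProperty.Spec_iff (P := @LocallyOfFiniteType)]
    exact tau_finiteType τ hτ
  change LocallyOfFiniteType (pullback.snd Z.hom specInl ≫ Spec.map (CommRingCat.ofHom τ))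
  infer_instance

theorem twist_quasiCompact (τ : ℂ →+* DualNumber ℂ) (Z : SchC) (h : QuasiCompact Z.hom) :
    QuasiCompact (twist τ Z).hom := by
  change QuasiCompact (pullback.snd Z.hom specInl ≫ Spec.map (CommRingCat.ofHom τ))
  infer_instance

theorem cone_compact (lam : ℂ) : CompactSpace (coneOpen lam : Scheme.{0}) := by
  exact isCompact_iff_compactSpace.1
    ((PrimeSpectrum.isCompact_basicOpen _).union (PrimeSpectrum.isCompact_basicOpen _))

theorem cone_quasiAffine (lam : ℂ) : (coneOpen lam : Scheme.{0}).IsQuasiAffine := by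
  have := cone_compact lam
  exact Scheme.IsQuasiAffine.of_isImmersion (coneOpen lam).ι

theorem cone_quasiCompact (lam : ℂ) : QuasiCompact (coneZ lam).hom := by
  change QuasiCompact ((coneOpen lam).ι ≫
    Spec.map (CommRingCat.ofHom (algebraMap ℂ (Cone lam))))
  have := cone_compact lam
  infer_instance

theorem cone_locallyOfFiniteType (lam : ℂ) : LocallyOfFiniteType (coneZ lam).hom := by
  have h1 : LocallyOfFiniteType (Spec.map (CommRingCat.ofHom (algebraMap ℂ (Cone lam)))) := by
    rw [HasRingHomProperty.Spec_iff (P := @LocallyOfFiniteType)]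
    have : Algebra.FiniteType ℂ (Cone lam) := inferInstance
    exact RingHom.finiteType_algebraMap.2 this
  change LocallyOfFiniteType ((coneOpen lam).ι ≫
    Spec.map (CommRingCat.ofHom (algebraMap ℂ (Cone lam))))
  infer_instance

end Pool.Agent.MS9
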