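import Pool.Agent.LibMS9.Facts

/-!
# The quotient stacks which are not moduli stacks
-/

set_option autoImplicit false

open CategoryTheory Limits AlgebraicGeometry Opposite TopologicalSpace MonoidalCategory
  CartesianMonoidalCategory MonObj

namespace Pool.Agent.MS9

/-- The standard conventions: all `ℂ`-schemes as base schemes, no further condition on the
families, and the polarizations `L` and `L'` of a family over `S` are identified if they are
isomorphic locally on `S`. -/
noncomputable def Conventions.std : Conventions where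
  base := ⊤
  base_of_finiteType _ _ _ := trivial
  cond _ _ := True
  cond_baseChange _ _ _ _ _ _ _ := trivial
  rel f M N := LocIso f M N
  rel_of_iso f _ _ i := LocIso.of_iso f i
  rel_trans _ _ _ _ h h' := h.trans h'
  rel_baseChange _ _ _ _ _ _ h h' := LocIso.pullback h.w h'

/-- The trivial action of `G` on `Z`. -/
noncomputable def trivialAct (G : SchC) [GrpObj G] (Z : SchC) : GAction G Z where
  act := snd G Z
  one_act _ := lift_snd _ _
  mul_act _ _ _ := by simp

theorem exists_transcendental : ∃ lam : ℂ, Transcendental ℚ lam := by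
  by_contra h
  have h2 : ∀ x : ℂ, IsAlgebraic ℚ x := fun x => by
    by_contra h3
    exact h ⟨x, h3⟩
  exact not_countable_complex ((Algebraic.countable ℚ ℂ).mono (fun x _ => h2 x))

theorem lam_pow_ne (lam : ℂ) (h : Transcendental ℚ lam) : lam ^ 3 ≠ 1 := by
  intro h1
  apply h
  refine ⟨Polynomial.X ^ 3 - 1, ?_, by simp [h1]⟩
  intro h2
  have := congrArg (fun p => Polynomial.coeff p 3) h2
  simp [Polynomial.coeff_one] at this

theorem cone_smooth (lam : ℂ) (h : Transcendental ℚ lam) : Smooth (coneZ lam).hom :=
  coneOpen_smooth lam (lam_pow_ne lam h)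

theorem cone_not_moduli (lam : ℂ) (h : Transcendental ℚ lam) (K : Conventions) (C : PolClass)
    (G : SchC) [GrpObj G] [LocallyOfFiniteType G.hom] (W : SchC) (aW : GAction G W)
    (ρ : W ⟶ coneZ lam) (s : coneZ lam ⟶ W) (hρ : aW.act ≫ ρ = snd G W ≫ ρ)
    (hs : s ≫ ρ = 𝟙 _) : ¬ IsModuliStackFor K C (QuotStack.proj K G aW) := by
  intro hM
  obtain ⟨τ, hτ, hlam⟩ := exists_twist lam h
  obtain ⟨ψ, hψ⟩ := exists_lift_quot aW ρ hρ s hs hM τ hτ
    (K.base_of_finiteType _ (cone_locallyOfFiniteType lam) (cone_quasiCompact lam))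
    (K.base_of_finiteType _ (twist_locallyOfFiniteType τ hτ _ (cone_locallyOfFiniteType lam))
      (twist_quasiCompact τ _ (cone_quasiCompact lam)))
  exact cone_no_psi lam τ hτ (by rw [hlam]; exact one_ne_zero) ψ hψ

end Pool.Agent.MS9
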