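import Pool.Agent.LibMS9.Quot
import Pool.Agent.LibMS9.ConeDefs

/-!
# From the lift to ring homomorphisms
-/

set_option autoImplicit false

open CategoryTheory Limits AlgebraicGeometry Opposite TopologicalSpace

namespace Pool.Agent.MS9

/-- The ring homomorphism `A[ε] ⟶ B[ε]` induced by `A ⟶ B`. -/
def dualMap {A B : Type} [CommRing A] [CommRing B] (φ : A →+* B) : DualNumber A →+* DualNumber B where
  toFun a := TrivSqZeroExt.inl (φ (TrivSqZeroExt.fst a)) +
    TrivSqZeroExt.inr (φ (TrivSqZeroExt.snd a))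
  map_one' := by ext <;> simp
  map_mul' a b := by ext <;> simp
  map_zero' := by ext <;> simp
  map_add' a b := by ext <;> simp

@[simp]
theorem fst_dualMap {A B : Type} [CommRing A] [CommRing B] (φ : A →+* B) (a : DualNumber A) :
    TrivSqZeroExt.fst (dualMap φ a) = φ (TrivSqZeroExt.fst a) := by
  simp [dualMap]

@[simp]
theorem snd_dualMap {A B : Type} [CommRing A] [CommRing B] (φ : A →+* B) (a : DualNumber A) :
    TrivSqZeroExt.snd (dualMap φ a) = φ (TrivSqZeroExt.snd a) := by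
  simp [dualMap]

/-- The ring homomorphism `B[ε] ⟶ B`, `ε ↦ 0`. -/
abbrev dualFst (B : Type) [CommRing B] : DualNumber B →+* B :=
  (TrivSqZeroExt.fstHom B B B).toRingHom

/-- The ring homomorphism `B ⟶ B[ε]`. -/
abbrev dualInl (B : Type) [CommRing B] : B →+* DualNumber B :=
  TrivSqZeroExt.inlHom B B

variable {Z : SchC}

/-- The morphism `Spec B[ε] ⟶ Z[ε]` induced by `j : Spec B ⟶ Z`. -/
noncomputable def dualPt {B : Type} [CommRing B] [Algebra ℂ B] (j : Spec (.of B) ⟶ Z.left)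
    (hj : j ≫ Z.hom = Spec.map (CommRingCat.ofHom (algebraMap ℂ B))) :
    Spec (.of (DualNumber B)) ⟶ dual Z :=
  pullback.lift (Spec.map (CommRingCat.ofHom (dualInl B)) ≫ j)
    (Spec.map (CommRingCat.ofHom (dualMap (algebraMap ℂ B)))) (by
      rw [Category.assoc, hj, ← Spec.map_comp, ← Spec.map_comp, ← CommRingCat.ofHom_comp,
        ← CommRingCat.ofHom_comp]
      congr 2
      ext a <;> simp [TrivSqZeroExt.algebraMap_eq_inl])

theorem dualPt_zero {B : Type} [CommRing B] [Algebra ℂ B] (j : Spec (.of B) ⟶ Z.left)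
    (hj : j ≫ Z.hom = Spec.map (CommRingCat.ofHom (algebraMap ℂ B))) :
    Spec.map (CommRingCat.ofHom (dualFst B)) ≫ dualPt j hj = j ≫ zeroLeft Z := by
  apply pullback.hom_ext
  · rw [Category.assoc, Category.assoc, zeroLeft_fst, Category.comp_id, dualPt,
      pullback.lift_fst, ← Category.assoc, ← Spec.map_comp, ← CommRingCat.ofHom_comp]
    have : (dualFst B).comp (dualInl B) = RingHom.id B := by
      ext a
      simp
    rw [this, CommRingCat.ofHom_id, Spec.map_id, Category.id_comp]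
  · rw [Category.assoc, Category.assoc, zeroLeft_snd, dualPt, pullback.lift_snd,
      ← Category.assoc, hj, ← Spec.map_comp, ← Spec.map_comp, ← CommRingCat.ofHom_comp,
      ← CommRingCat.ofHom_comp]
    congr 2
    ext a <;> simp [TrivSqZeroExt.algebraMap_eq_inl]

theorem dualPt_map {B B' : Type} [CommRing B] [Algebra ℂ B] [CommRing B'] [Algebra ℂ B']
    (j : Spec (.of B) ⟶ Z.left)
    (hj : j ≫ Z.hom = Spec.map (CommRingCat.ofHom (algebraMap ℂ B)))
    (j' : Spec (.of B') ⟶ Z.left)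
    (hj' : j' ≫ Z.hom = Spec.map (CommRingCat.ofHom (algebraMap ℂ B'))) (φ : B →+* B')
    (hφ : φ.comp (algebraMap ℂ B) = algebraMap ℂ B')
    (h : Spec.map (CommRingCat.ofHom φ) ≫ j = j') :
    Spec.map (CommRingCat.ofHom (dualMap φ)) ≫ dualPt j hj = dualPt j' hj' := by
  apply pullback.hom_ext
  · rw [Category.assoc, dualPt, pullback.lift_fst, dualPt, pullback.lift_fst, ← h,
      ← Category.assoc, ← Category.assoc, ← Spec.map_comp, ← Spec.map_comp,
      ← CommRingCat.ofHom_comp, ← CommRingCat.ofHom_comp]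
    congr 3
    ext a <;> simp
  · rw [Category.assoc, dualPt, pullback.lift_snd, dualPt, pullback.lift_snd,
      ← Spec.map_comp, ← CommRingCat.ofHom_comp, ← hφ]
    congr 2
    ext a <;> simp

/-! ## The ring homomorphisms -/

theorem zeroLeft_psi (τ : ℂ →+* DualNumber ℂ) (hτ : ∀ a, TrivSqZeroExt.fst (τ a) = a)
    (ψ : twist τ Z ⟶ Z) (hψ : zeroSec τ hτ Z ≫ ψ = 𝟙 Z) :
    zeroLeft Z ≫ (ψ.left : dual Z ⟶ Z.left) = 𝟙 Z.left :=
  congrArg (fun k => k.left) hψ

theorem psi_hom (τ : ℂ →+* DualNumber ℂ) (ψ : twist τ Z ⟶ Z) :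
    (ψ.left : dual Z ⟶ Z.left) ≫ Z.hom =
      pullback.snd Z.hom specInl ≫ Spec.map (CommRingCat.ofHom τ) := Over.w ψ

section

variable {A B B' : Type} [CommRing A] [Algebra ℂ A] [CommRing B] [Algebra ℂ B] [CommRing B']
  [Algebra ℂ B']

/-- The ring homomorphism `A ⟶ B[ε]` given by `Spec B[ε] ⟶ Z[ε] ⟶ Z ⟶ Spec A`. -/
noncomputable def liftHom (ψ : dual Z ⟶ Z.left) (ι : Z.left ⟶ Spec (.of A))
    (j : Spec (.of B) ⟶ Z.left)
    (hj : j ≫ Z.hom = Spec.map (CommRingCat.ofHom (algebraMap ℂ B))) : A →+* DualNumber B :=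
  (Spec.preimage (dualPt j hj ≫ ψ ≫ ι)).hom

variable (ψ : dual Z ⟶ Z.left) (ι : Z.left ⟶ Spec (.of A))
    (j : Spec (.of B) ⟶ Z.left)
    (hj : j ≫ Z.hom = Spec.map (CommRingCat.ofHom (algebraMap ℂ B)))
    (j' : Spec (.of B') ⟶ Z.left)
    (hj' : j' ≫ Z.hom = Spec.map (CommRingCat.ofHom (algebraMap ℂ B')))

theorem liftHom_spec : Spec.map (CommRingCat.ofHom (liftHom ψ ι j hj)) =
    dualPt j hj ≫ ψ ≫ ι := by
  rw [liftHom, CommRingCat.ofHom_hom, Spec.map_preimage]

theorem ringHom_ext {R S : Type} [CommRing R] [CommRing S] {f g : R →+* S}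
    (h : Spec.map (CommRingCat.ofHom f) = Spec.map (CommRingCat.ofHom g)) : f = g := by
  have := Spec.map_injective h
  exact congrArg (fun k => k.hom) this

theorem liftHom_fst (hψ : zeroLeft Z ≫ ψ = 𝟙 Z.left) (α : A →+* B)
    (hα : j ≫ ι = Spec.map (CommRingCat.ofHom α)) :
    (dualFst B).comp (liftHom ψ ι j hj) = α := by
  apply ringHom_ext
  rw [CommRingCat.ofHom_comp, Spec.map_comp, liftHom_spec, ← Category.assoc, dualPt_zero,
    Category.assoc, ← Category.assoc (zeroLeft Z), hψ, Category.id_comp, hα]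

theorem liftHom_algebraMap (τ : ℂ →+* DualNumber ℂ)
    (hψ : ψ ≫ Z.hom = pullback.snd Z.hom specInl ≫ Spec.map (CommRingCat.ofHom τ))
    (hι : ι ≫ Spec.map (CommRingCat.ofHom (algebraMap ℂ A)) = Z.hom) :
    (liftHom ψ ι j hj).comp (algebraMap ℂ A) = (dualMap (algebraMap ℂ B)).comp τ := by
  apply ringHom_ext
  rw [CommRingCat.ofHom_comp, Spec.map_comp, liftHom_spec, Category.assoc, Category.assoc, hι, hψ,
    CommRingCat.ofHom_comp, Spec.map_comp, ← Category.assoc, dualPt, pullback.lift_snd]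

theorem liftHom_map (φ : B →+* B') (hφ : φ.comp (algebraMap ℂ B) = algebraMap ℂ B')
    (h : Spec.map (CommRingCat.ofHom φ) ≫ j = j') :
    (dualMap φ).comp (liftHom ψ ι j hj) = liftHom ψ ι j' hj' := by
  apply ringHom_ext
  rw [CommRingCat.ofHom_comp, Spec.map_comp, liftHom_spec, liftHom_spec, ← Category.assoc,
    dualPt_map j hj j' hj' φ hφ h]

end

end Pool.Agent.MS9
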