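import Pool.Agent.LibMS9.Defs

/-!
# Pullbacks of invertible sheaves, isomorphisms locally on the base
-/

set_option autoImplicit false

open CategoryTheory Limits AlgebraicGeometry Opposite TopologicalSpace

namespace Pool.Agent.MS9

instance opensMapFinal {X Y : TopCat.{0}} (h : Y ⟶ X) : (Opens.map h).Final where
  out d := by
    let T : StructuredArrow d (Opens.map h) := StructuredArrow.mk (Y := (⊤ : Opens X))
      (homOfLE (fun _ _ => trivial))
    have hT : IsTerminal T := IsTerminal.ofUniqueHom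
      (fun Z => StructuredArrow.homMk (homOfLE le_top) (Subsingleton.elim _ _))
      (fun Z m => by ext; exact Subsingleton.elim _ _)
    exact isConnected_of_isTerminal _ hT

set_option backward.isDefEq.respectTransparency.types false in
instance pushforward_isRightAdjoint' {X Y : Scheme.{0}} (h : Y ⟶ X) :
    (SheafOfModules.pushforward.{0} (Scheme.Hom.toRingCatSheafHom h)).IsRightAdjoint :=
  inferInstanceAs (Scheme.Modules.pushforward h).IsRightAdjoint

set_option backward.isDefEq.respectTransparency.types false in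
instance pullbackUnit_isIso {X Y : Scheme.{0}} (h : Y ⟶ X) :
    IsIso (SheafOfModules.pullbackObjUnitToUnit.{0} (Scheme.Hom.toRingCatSheafHom h)) := by
  have := opensMapFinal h.base
  infer_instance

noncomputable def pullbackUnitIso0 {X Y : Scheme.{0}} (h : Y ⟶ X) :
    (SheafOfModules.pullback.{0} (Scheme.Hom.toRingCatSheafHom h)).obj
      (SheafOfModules.unit X.ringCatSheaf) ≅ SheafOfModules.unit Y.ringCatSheaf :=
  asIso (SheafOfModules.pullbackObjUnitToUnit.{0} (Scheme.Hom.toRingCatSheafHom h))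

set_option backward.isDefEq.respectTransparency.types false in
/-- The pullback of the structure sheaf is the structure sheaf. -/
noncomputable def pullbackUnitIso {X Y : Scheme.{0}} (h : Y ⟶ X) :
    (Scheme.Modules.pullback h).obj (SheafOfModules.unit X.ringCatSheaf) ≅
      SheafOfModules.unit Y.ringCatSheaf :=
  ⟨(pullbackUnitIso0 h).hom, (pullbackUnitIso0 h).inv, (pullbackUnitIso0 h).hom_inv_id,
    (pullbackUnitIso0 h).inv_hom_id⟩

/-- Pullback and restriction to open subsets. -/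
noncomputable def restrictPullbackIso {X Y : Scheme.{0}} (h : Y ⟶ X) (U : X.Opens) (U' : Y.Opens)
    (e : U' ≤ h ⁻¹ᵁ U) (M : X.Modules) :
    ((Scheme.Modules.pullback h).obj M).restrict U'.ι ≅
      (Scheme.Modules.pullback (h.resLE U U' e)).obj (M.restrict U.ι) :=
  (Scheme.Modules.restrictFunctorIsoPullback U'.ι).app _ ≪≫
    (Scheme.Modules.pullbackComp U'.ι h).app M ≪≫
    (Scheme.Modules.pullbackCongr (h.resLE_comp_ι e).symm).app M ≪≫
    (Scheme.Modules.pullbackComp (h.resLE U U' e) U.ι).symm.app M ≪≫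
    (Scheme.Modules.pullback (h.resLE U U' e)).mapIso
      ((Scheme.Modules.restrictFunctorIsoPullback U.ι).symm.app M)

theorem IsInvertible.pullback {X Y : Scheme.{0}} (h : Y ⟶ X) {L : X.Modules}
    (hL : IsInvertible L) : IsInvertible ((Scheme.Modules.pullback h).obj L) := by
  intro y
  obtain ⟨U, hxU, ⟨i⟩⟩ := hL (h y)
  refine ⟨h ⁻¹ᵁ U, hxU, ⟨?_⟩⟩
  exact restrictPullbackIso h U (h ⁻¹ᵁ U) le_rfl L ≪≫
    (Scheme.Modules.pullback (h.resLE U (h ⁻¹ᵁ U) le_rfl)).mapIso i ≪≫ pullbackUnitIso _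

/-- Isomorphic modules restrict to isomorphic modules on smaller open sets. -/
noncomputable def restrictIsoOfLE {X : Scheme.{0}} {U V : X.Opens} (e : V ≤ U) {M N : X.Modules}
    (i : M.restrict U.ι ≅ N.restrict U.ι) : M.restrict V.ι ≅ N.restrict V.ι :=
  (Scheme.Modules.restrictFunctorCongr (X.homOfLE_ι e).symm).app M ≪≫
    (Scheme.Modules.restrictFunctorComp (X.homOfLE e) U.ι).app M ≪≫
    (Scheme.Modules.restrictFunctor (X.homOfLE e)).mapIso i ≪≫
    (Scheme.Modules.restrictFunctorComp (X.homOfLE e) U.ι).symm.app N ≪≫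
    (Scheme.Modules.restrictFunctorCongr (X.homOfLE_ι e)).app N

theorem LocIso.of_iso {X S : Scheme.{0}} (f : X ⟶ S) {M N : X.Modules} (i : M ≅ N) :
    LocIso f M N := fun _ =>
  ⟨⊤, trivial, ⟨(Scheme.Modules.restrictFunctor (f ⁻¹ᵁ (⊤ : S.Opens)).ι).mapIso i⟩⟩

theorem LocIso.symm {X S : Scheme.{0}} {f : X ⟶ S} {M N : X.Modules} (h : LocIso f M N) :
    LocIso f N M := fun s => by
  obtain ⟨V, hV, ⟨i⟩⟩ := h s
  exact ⟨V, hV, ⟨i.symm⟩⟩

theorem LocIso.trans {X S : Scheme.{0}} {f : X ⟶ S} {M N K : X.Modules} (h : LocIso f M N)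
    (h' : LocIso f N K) : LocIso f M K := fun s => by
  obtain ⟨V, hV, ⟨i⟩⟩ := h s
  obtain ⟨V', hV', ⟨i'⟩⟩ := h' s
  have e1 : f ⁻¹ᵁ (V ⊓ V') ≤ f ⁻¹ᵁ V := fun x hx => hx.1
  have e2 : f ⁻¹ᵁ (V ⊓ V') ≤ f ⁻¹ᵁ V' := fun x hx => hx.2
  exact ⟨V ⊓ V', ⟨hV, hV'⟩, ⟨restrictIsoOfLE e1 i ≪≫ restrictIsoOfLE e2 i'⟩⟩

theorem LocIso.pullback {X S X' S' : Scheme.{0}} {f : X ⟶ S} {f' : X' ⟶ S'} {g : X' ⟶ X}
    {φ : S' ⟶ S} (w : g ≫ f = f' ≫ φ) {M N : X.Modules} (h : LocIso f M N) :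
    LocIso f' ((Scheme.Modules.pullback g).obj M) ((Scheme.Modules.pullback g).obj N) := fun s => by
  obtain ⟨V, hV, ⟨i⟩⟩ := h (φ s)
  have e : f' ⁻¹ᵁ (φ ⁻¹ᵁ V) ≤ g ⁻¹ᵁ (f ⁻¹ᵁ V) := by
    rw [← Scheme.Hom.comp_preimage, ← Scheme.Hom.comp_preimage, w]
  refine ⟨φ ⁻¹ᵁ V, hV, ⟨?_⟩⟩
  exact restrictPullbackIso g (f ⁻¹ᵁ V) _ e M ≪≫
    (Scheme.Modules.pullback (g.resLE (f ⁻¹ᵁ V) _ e)).mapIso i ≪≫
    (restrictPullbackIso g (f ⁻¹ᵁ V) _ e N).symm

end Pool.Agent.MS9
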