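import Pool.Agent.LibMS9.Defs

/-!
# Quotient stacks: definitions
-/

set_option autoImplicit false

open CategoryTheory Limits AlgebraicGeometry Opposite TopologicalSpace MonoidalCategory
  CartesianMonoidalCategory MonObj

namespace Pool.Agent.MS9

/-! ## Group actions -/

section groupActions

variable {D : Type*} [Category* D] [CartesianMonoidalCategory D]

/-- An action of the group object `G` on `W`: a morphism `G × W ⟶ W`, `(g, w) ↦ g w`, with
`1 w = w` and `(g h) w = g (h w)` for all `T`-valued points. -/
structure GAction (G : D) [GrpObj G] (W : D) where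
  act : G ⊗ W ⟶ W
  one_act : ∀ {T : D} (w : T ⟶ W), lift (1 : T ⟶ G) w ≫ act = w
  mul_act : ∀ {T : D} (g h : T ⟶ G) (w : T ⟶ W),
    lift (g * h) w ≫ act = lift g (lift h w ≫ act) ≫ act

end groupActions

/-! ## Quotient stacks -/

/-- The objects of the quotient stack `[W/G]` over the `ℂ`-schemes `S`: the
`G`-torsors `π : P ⟶ S` with an equivariant morphism `σ : P ⟶ W`. A torsor is a scheme `P` with
an action of `G` and an invariant morphism `π` to `S` which is an fppf covering such that
`G × P ⟶ P ×_S P`, `(g, p) ↦ (g p, p)`, is an isomorphism. -/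
structure QuotStack (K : Conventions) (G : SchC) [GrpObj G] {W : SchC}
    (aW : GAction G W) where
  S : SchC
  hS : K.base S
  P : SchC
  aP : GAction G P
  π : P ⟶ S
  flat : Flat π.left
  surjective : Surjective π.left
  finitePresentation : LocallyOfFinitePresentation π.left
  torsor : IsPullback aP.act (snd G P) π π
  σ : P ⟶ W
  equivariant : aP.act ≫ σ = (G ◁ σ) ≫ aW.act

namespace QuotStack

variable {K : Conventions} {G : SchC} [GrpObj G] {W : SchC} {aW : GAction G W}

/-- The morphisms of the quotient stack: a morphism `S' ⟶ S` and an equivariant morphism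
`P' ⟶ P` which makes the square cartesian and is compatible with the morphisms to `W`. -/
@[ext]
structure Hom (a b : QuotStack K G aW) where
  base : a.S ⟶ b.S
  g : a.P ⟶ b.P
  equivariant : a.aP.act ≫ g = (G ◁ g) ≫ b.aP.act
  cart : IsPullback g a.π b.π base
  compat : g ≫ b.σ = a.σ

/-- The identity. -/
noncomputable def Hom.id (a : QuotStack K G aW) : Hom a a where
  base := 𝟙 _
  g := 𝟙 _
  equivariant := by simp
  cart := IsPullback.of_horiz_isIso ⟨by simp⟩
  compat := Category.id_comp _

/-- The composition. -/
noncomputable def Hom.comp {a b c : QuotStack K G aW} (u : Hom a b) (v : Hom b c) : Hom a c where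
  base := u.base ≫ v.base
  g := u.g ≫ v.g
  equivariant := by
    rw [← Category.assoc, u.equivariant, Category.assoc, v.equivariant, ← Category.assoc,
      ← MonoidalCategory.whiskerLeft_comp]
  cart := u.cart.paste_horiz v.cart
  compat := by rw [Category.assoc, v.compat, u.compat]

noncomputable instance : Category (QuotStack K G aW) where
  Hom := Hom
  id := Hom.id
  comp := Hom.comp
  id_comp _ := Hom.ext (Category.id_comp _) (Category.id_comp _)
  comp_id _ := Hom.ext (Category.comp_id _) (Category.comp_id _)
  assoc _ _ _ := Hom.ext (Category.assoc _ _ _) (Category.assoc _ _ _)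

variable (K) in
/-- The structure functor of the quotient stack: `(P ⟶ S, P ⟶ W) ↦ S`. -/
noncomputable def proj (G : SchC) [GrpObj G] {W : SchC} (aW : GAction G W) : QuotStack K G aW ⥤ SchC where
  obj a := a.S
  map u := u.base
  map_id _ := rfl
  map_comp _ _ := rfl

end QuotStack

/-- The stack `p : 𝒳 ⥤ (ℂ-schemes)` is a moduli stack for the class `C` of polarized manifolds:
it is equivalent to `𝓜_C` over the category of `ℂ`-schemes. -/
def IsModuliStackFor (K : Conventions) (C : PolClass) {𝒳 : Type*}
    [Category* 𝒳] (p : 𝒳 ⥤ SchC) : Prop :=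
  ∃ E : Fam K C ≌ 𝒳, Nonempty (E.functor ⋙ p ≅ Fam.proj K C)

end Pool.Agent.MS9
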