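import Pool.Agent.LibMS9.Stack
import Pool.Agent.LibMS9.QuotDefs

/-!
# Lifting of derivations for quotient stacks
-/

set_option autoImplicit false

open CategoryTheory Limits AlgebraicGeometry Opposite TopologicalSpace MonoidalCategory
  CartesianMonoidalCategory MonObj

namespace Pool.Agent.MS9

section groupActions

variable {D : Type*} [Category* D] [CartesianMonoidalCategory D]

variable (G : D) [GrpObj G] (Z : D)

/-- The action of `G` on `G × Z` by multiplication from the left. -/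
def trivAction : GAction G (G ⊗ Z) where
  act := lift (fst G (G ⊗ Z) * (snd G (G ⊗ Z) ≫ fst G Z)) (snd G (G ⊗ Z) ≫ snd G Z)
  one_act w := by
    ext
    · simp [MonObj.comp_mul]
    · simp
  mul_act g h w := by
    ext
    · simp [MonObj.comp_mul, _root_.mul_assoc]
    · simp 

theorem trivAction_snd : (trivAction G Z).act ≫ snd G Z = snd G (G ⊗ Z) ≫ snd G Z := by
  simp [trivAction]

theorem trivAction_fst : (trivAction G Z).act ≫ fst G Z =
    (fst G (G ⊗ Z)) * (snd G (G ⊗ Z) ≫ fst G Z) := by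
  simp [trivAction]

theorem trivAction_torsor :
    IsPullback (trivAction G Z).act (snd G (G ⊗ Z)) (snd G Z) (snd G Z) := by
  refine ⟨⟨trivAction_snd G Z⟩, ⟨PullbackCone.IsLimit.mk _
    (fun c => lift ((c.fst ≫ fst G Z) * (c.snd ≫ fst G Z)⁻¹) c.snd) ?_ ?_ ?_⟩⟩
  · intro c
    have := c.condition
    ext
    · simp [trivAction, MonObj.comp_mul]
    · simp [trivAction, this]
  · intro c
    simp
  · intro c m h1 h2
    ext
    · simp only [lift_fst]
      rw [← h1, ← h2, Category.assoc, Category.assoc, trivAction_fst]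
      simp [MonObj.comp_mul]
    · simp [← h2]
    · simp [← h2]

/-- The equivariant morphism `G × Z ⟶ W`, `(g, z) ↦ g s(z)`. -/
def trivMap {G W : D} [GrpObj G] (aW : GAction G W) {Z : D} (s : Z ⟶ W) : G ⊗ Z ⟶ W :=
  (G ◁ s) ≫ aW.act

theorem trivMap_equivariant {G W : D} [GrpObj G] (aW : GAction G W) {Z : D} (s : Z ⟶ W) :
    (trivAction G Z).act ≫ trivMap aW s = (G ◁ trivMap aW s) ≫ aW.act := by
  have h := aW.mul_act (fst G (G ⊗ Z)) (snd G (G ⊗ Z) ≫ fst G Z) (snd G (G ⊗ Z) ≫ snd G Z ≫ s)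
  have e1 : (trivAction G Z).act ≫ trivMap aW s =
      lift (fst G (G ⊗ Z) * (snd G (G ⊗ Z) ≫ fst G Z)) (snd G (G ⊗ Z) ≫ snd G Z ≫ s) ≫
        aW.act := by
    simp [trivAction, trivMap]
  have e2 : (G ◁ trivMap aW s) ≫ aW.act = lift (fst G (G ⊗ Z))
      (lift (snd G (G ⊗ Z) ≫ fst G Z) (snd G (G ⊗ Z) ≫ snd G Z ≫ s) ≫ aW.act) ≫ aW.act := by
    congr 1
    ext
    · simp
    · simp only [whiskerLeft_snd, trivMap, lift_snd]
      rw [← Category.assoc, ← Category.assoc]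
      congr 1
      ext <;> simp
  rw [e1, e2, h]

end groupActions

theorem cat_aux2 {D : Type*} [Category* D] {Su Sv X A Y : D} (θ : Su ≅ X) (s : X ⟶ Sv)
    (hu : A ⟶ Su) (hu' : Su ⟶ A) (huu : hu ≫ hu' = 𝟙 A) (kh : A ⟶ X) (ki : X ⟶ A)
    (hk : ki ≫ kh = 𝟙 X)
    (m : A ⟶ Y) (ev : Y ⟶ Sv) (nat : m ≫ ev = hu ≫ θ.hom ≫ s)
    (w : θ.hom = hu' ≫ kh) : (ki ≫ m) ≫ ev = s := by
  rw [Category.assoc, nat, w, Category.assoc, ← Category.assoc hu, huu, Category.id_comp,
    ← Category.assoc, hk, Category.id_comp]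

/-- **Every derivation of `ℂ` lifts to a moduli stack.** Let `𝒳` be a moduli stack and
`τ : ℂ ⟶ ℂ[ε]` a ring homomorphism `a ↦ a + D(a) ε`. Then every object `x` of `𝒳` over `S` is the
restriction of an object `y` over `S[ε]`, the latter with the `ℂ`-structure twisted by `τ`. -/
theorem exists_extension {K : Conventions} {C : PolClass} {𝒳 : Type*}
    [Category* 𝒳] {p : 𝒳 ⥤ SchC} (h : IsModuliStackFor K C p) (τ : ℂ →+* DualNumber ℂ)
    (hτ : ∀ a, TrivSqZeroExt.fst (τ a) = a) (x : 𝒳) (hb : K.base (twist τ (p.obj x))) :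
    ∃ (y : 𝒳) (m : x ⟶ y) (e : p.obj y ≅ twist τ (p.obj x)),
      p.map m ≫ e.hom = zeroSec τ hτ (p.obj x) := by
  obtain ⟨E, ⟨ζ⟩⟩ := h
  let u : Fam K C := E.inverse.obj x
  let κ : E.functor.obj u ≅ x := E.counitIso.app x
  let θ : u.S ≅ p.obj x := (ζ.app u).symm ≪≫ p.mapIso κ
  let v : Fam K C := twistFam τ hτ u θ hb
  let z : u ⟶ v := twistHom τ hτ u θ hb
  have nat : p.map (E.functor.map z) ≫ ζ.hom.app v =
    ζ.hom.app u ≫ (θ.hom ≫ zeroSec τ hτ (p.obj x) : u.S ⟶ twist τ (p.obj x)) :=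
    ζ.hom.naturality z
  refine ⟨E.functor.obj v, κ.inv ≫ E.functor.map z, ζ.app v, ?_⟩
  rw [p.map_comp]
  exact cat_aux2 θ (zeroSec τ hτ (p.obj x)) (ζ.hom.app u) (ζ.inv.app u)
    (ζ.hom_inv_id_app u) (p.map κ.hom) (p.map κ.inv)
    (by rw [← p.map_comp, κ.inv_hom_id, p.map_id]) _ (ζ.hom.app v) nat rfl

/-! ## Descent along a torsor -/

/-- An invariant morphism descends along a torsor. -/
theorem descend {G P S Z : SchC} [GrpObj G] (aP : GAction G P) (π : P ⟶ S) (h1 : Flat π.left)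
    (h2 : Surjective π.left) (h3 : LocallyOfFinitePresentation π.left)
    (h4 : IsPullback aP.act (snd G P) π π) (f : P ⟶ Z) (hf : aP.act ≫ f = snd G P ≫ f) :
    ∃ d : S ⟶ Z, π ≫ d = f := by
  have key : ∀ {T : Scheme.{0}} (g₁ g₂ : T ⟶ P.left), g₁ ≫ π.left = g₂ ≫ π.left →
      g₁ ≫ f.left = g₂ ≫ f.left := by
    intro T g₁ g₂ h
    have hw : π.left ≫ S.hom = P.hom := Over.w π
    have h5 : g₂ ≫ P.hom = g₁ ≫ P.hom := by
      rw [← hw, ← Category.assoc, ← Category.assoc, h]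
    let T' : SchC := Over.mk (g₁ ≫ P.hom)
    let k₁ : T' ⟶ P := Over.homMk g₁ rfl
    let k₂ : T' ⟶ P := Over.homMk g₂ h5
    have hk : k₁ ≫ π = k₂ ≫ π := by
      ext1
      exact h
    have h6 : k₁ ≫ f = k₂ ≫ f := by
      rw [← h4.lift_fst k₁ k₂ hk, Category.assoc, hf, ← Category.assoc, h4.lift_snd]
    exact congrArg (fun k => k.left) h6
  have hE : EffectiveEpi π.left := inferInstance
  let d : S.left ⟶ Z.left := EffectiveEpi.desc π.left f.left key
  have hd : π.left ≫ d = f.left := EffectiveEpi.fac π.left f.left key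
  refine ⟨Over.homMk d ?_, ?_⟩
  · rw [← cancel_epi π.left, ← Category.assoc, hd]
    rw [Over.w, Over.w]
  · ext1
    exact hd

/-! ## Lifting for quotient stacks -/

theorem surjective_of_grpObj (G : SchC) [GrpObj G] : Surjective G.hom := by
  have h : (η[G] : 𝟙_ SchC ⟶ G).left ≫ G.hom = (𝟙_ SchC).hom := Over.w _
  have h2 : (𝟙_ SchC).hom = 𝟙 (Spec (.of ℂ)) := rfl
  refine ⟨fun x => ⟨(η[G] : 𝟙_ SchC ⟶ G).left x, ?_⟩⟩
  rw [← Scheme.Hom.comp_apply, h, h2]
  rfl

theorem cat_aux3 {D : Type*} [Category* D] {Z Y T : D} (b : Z ⟶ Y) (e : Y ≅ T) (z : Z ⟶ T)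
    (hm : b ≫ e.hom = z) (d : Y ⟶ Z) (hd : b ≫ d = 𝟙 Z) : z ≫ e.inv ≫ d = 𝟙 Z := by
  rw [← hm, Category.assoc, e.hom_inv_id_assoc, hd]

/-- Let `G` act on `W`, let `ρ : W ⟶ Z` be an invariant morphism with a section `s`. If `[W/G]`
is a moduli stack, then there is for every `τ` a morphism `ψ : Z[ε] ⟶ Z` which is the identity
on `Z` and is a morphism of `ℂ`-schemes for the structure of `Z[ε]` twisted by `τ`. -/
theorem exists_lift_quot {K : Conventions} {C : PolClass} {G W Z : SchC}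
    [GrpObj G] [LocallyOfFiniteType G.hom] (aW : GAction G W) (ρ : W ⟶ Z)
    (hρ : aW.act ≫ ρ = snd G W ≫ ρ) (s : Z ⟶ W) (hs : s ≫ ρ = 𝟙 Z)
    (h : IsModuliStackFor K C (QuotStack.proj K G aW)) (τ : ℂ →+* DualNumber ℂ)
    (hτ : ∀ a, TrivSqZeroExt.fst (τ a) = a) (hZ : K.base Z) (hb : K.base (twist τ Z)) :
    ∃ ψ : twist τ Z ⟶ Z, zeroSec τ hτ Z ≫ ψ = 𝟙 Z := by
  have hfl : Flat (snd G Z).left := by
    rw [Over.snd_left]
    infer_instance
  have hfp : LocallyOfFinitePresentation (snd G Z).left := by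
    rw [Over.snd_left]
    infer_instance
  have hsu : Surjective (snd G Z).left := by
    have : Surjective G.hom := surjective_of_grpObj G
    rw [Over.snd_left]
    infer_instance
  let x : QuotStack K G aW :=
    { S := Z
      hS := hZ
      P := G ⊗ Z
      aP := trivAction G Z
      π := snd G Z
      flat := hfl
      surjective := hsu
      finitePresentation := hfp
      torsor := trivAction_torsor G Z
      σ := trivMap aW s
      equivariant := trivMap_equivariant aW s }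
  obtain ⟨y, m, e, hm⟩ := exists_extension h τ hτ x hb
  have hinv : y.aP.act ≫ (y.σ ≫ ρ) = snd G y.P ≫ (y.σ ≫ ρ) := by
    rw [← Category.assoc, y.equivariant, Category.assoc, hρ]
    simp
  obtain ⟨d, hd⟩ := descend y.aP y.π y.flat y.surjective y.finitePresentation y.torsor
    (y.σ ≫ ρ) hinv
  have h1 : snd G Z ≫ m.base ≫ d = snd G Z := by
    have h2 : m.g ≫ y.π = snd G Z ≫ m.base := m.cart.w
    have h3 : m.g ≫ y.σ = trivMap aW s := m.compat
    rw [← Category.assoc, ← h2, Category.assoc, hd, ← Category.assoc, h3, trivMap,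
      Category.assoc, hρ]
    simp [hs]
  have h2 : m.base ≫ d = 𝟙 Z := by
    have h3 := congrArg (fun k => lift (1 : Z ⟶ G) (𝟙 Z) ≫ k) h1
    simpa using h3
  exact ⟨e.inv ≫ d, cat_aux3 m.base e _ hm d h2⟩

end Pool.Agent.MS9
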