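import Pool.Agent.LibMS9.Final

/-!
# A moduli stack: the class of points

The moduli stack of the class of the `0`-dimensional polarized manifolds (a point with any
invertible sheaf) is `Spec ℂ`. So the formal definitions are not void.
-/

set_option autoImplicit false

open CategoryTheory Limits AlgebraicGeometry Opposite TopologicalSpace

namespace Pool.Agent.MS9

section modules

/-- The structure sheaf. -/
noncomputable abbrev oX (X : Scheme.{0}) : X.Modules := SheafOfModules.unit X.ringCatSheaf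

theorem IsInvertible.of_iso {X : Scheme.{0}} {L L' : X.Modules} (i : L ≅ L')
    (h : IsInvertible L) : IsInvertible L' := fun x => by
  obtain ⟨U, hU, ⟨j⟩⟩ := h x
  exact ⟨U, hU, ⟨((Scheme.Modules.restrictFunctor U.ι).mapIso i).symm ≪≫ j⟩⟩

theorem isInvertible_unit (X : Scheme.{0}) : IsInvertible (oX X) := fun _ =>
  ⟨⊤, trivial, ⟨Scheme.Modules.restrictUnitIso _⟩⟩

/-- An invertible sheaf on a scheme with one point is trivial. -/
theorem IsInvertible.trivial {X : Scheme.{0}} [Nonempty X] [Subsingleton X] {L : X.Modules}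
    (h : IsInvertible L) : Nonempty (L ≅ oX X) := by
  obtain ⟨x⟩ := (inferInstance : Nonempty X)
  obtain ⟨U, hU, ⟨j⟩⟩ := h x
  have hUt : U = ⊤ := by
    ext y
    simp only [SetLike.mem_coe, Opens.coe_top, Set.mem_univ, iff_true]
    rw [Subsingleton.elim y x]
    exact hU
  subst hUt
  have e : X.topIso.inv ≫ (⊤ : X.Opens).ι = 𝟙 X := by simp
  exact ⟨(Scheme.Modules.restrictFunctorId.app L).symm ≪≫
    (Scheme.Modules.restrictFunctorCongr e.symm).app L ≪≫
    (Scheme.Modules.restrictFunctorComp X.topIso.inv (⊤ : X.Opens).ι).app L ≪≫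
    (Scheme.Modules.restrictFunctor X.topIso.inv).mapIso j ≪≫
    Scheme.Modules.restrictUnitIso _⟩

/-- The section `1` of the structure sheaf. -/
noncomputable def oneS (X : Scheme.{0}) (V : X.Opens) : Γ(oX X, V) := (1 : Γ(X, V))

theorem oneS_map {X : Scheme.{0}} {U V : X.Opens} (h : V ≤ U) :
    (oX X).presheaf.map (homOfLE h).op (oneS X U) = oneS X V := by
  change (X.presheaf.map (homOfLE h).op) (1 : Γ(X, U)) = 1
  exact map_one _

theorem smul_oneS {X : Scheme.{0}} (V : X.Opens) :
    Function.Bijective (fun a : Γ(X, V) => a • oneS X V) := by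
  have : (fun a : Γ(X, V) => a • oneS X V) = (fun a : Γ(X, V) => (a : Γ(oX X, V))) := by
    funext a
    exact mul_one (a : Γ(X, V))
  rw [this]
  exact Function.bijective_id

/-- A trivial invertible sheaf has a generator. -/
theorem isGenerator_of_iso {X : Scheme.{0}} {L : X.Modules} (i : oX X ≅ L) :
    IsGenerator L ⊤ (i.hom.app ⊤ (oneS X ⊤)) := by
  intro V hV
  have h1 : (L.presheaf.map (homOfLE hV).op) (i.hom.app ⊤ (oneS X ⊤)) =
      i.hom.app V (oneS X V) := by
    have h2 := i.hom.mapPresheaf.naturality (homOfLE hV).op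
    have h3 := congrArg (fun k => k.hom (oneS X ⊤)) h2
    rw [← oneS_map hV]
    exact h3.symm
  have h4 : (fun a : Γ(X, V) => a • (L.presheaf.map (homOfLE hV).op (i.hom.app ⊤ (oneS X ⊤)))) =
      (fun s => i.hom.app V s) ∘ (fun a : Γ(X, V) => a • oneS X V) := by
    funext a
    rw [h1]
    exact (Scheme.Modules.Hom.app_smul i.hom a (oneS X V)).symm
  rw [h4]
  refine Function.Bijective.comp ?_ (smul_oneS V)
  exact ConcreteCategory.bijective_of_isIso (i.hom.app V)

/-- The structure sheaf of an affine scheme is ample. -/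
theorem isAmple_of_iso {X : Scheme.{0}} [IsAffine X] {L : X.Modules} (i : oX X ≅ L) :
    IsAmple L := by
  refine ⟨inferInstance, fun x => ⟨1, L, ⟨fun _ s => s, fun _ _ => rfl, ?_, fun _ _ h => h⟩,
    i.hom.app ⊤ (oneS X ⊤), ⊤, le_refl _, trivial, isAffineOpen_top X, ?_⟩⟩
  · intro U a s
    rw [pow_one]
  · ext y
    simp only [Opens.coe_top, Set.mem_univ, true_iff]
    refine ⟨⊤, trivial, ?_⟩
    have h1 : L.presheaf.map (homOfLE (le_top : (⊤ : X.Opens) ≤ ⊤)).op
        (i.hom.app ⊤ (oneS X ⊤)) = i.hom.app ⊤ (oneS X ⊤) := by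
      have h2 : (homOfLE (le_top : (⊤ : X.Opens) ≤ ⊤)).op = 𝟙 _ := rfl
      rw [h2, CategoryTheory.Functor.map_id]
      rfl
    rw [h1]
    exact isGenerator_of_iso i

end modules

section points

theorem isIso_points {Ω : Type} [Field Ω] (P : PolPair Ω) (h : IsIso P.π) :
    Nonempty P.F ∧ Subsingleton P.F ∧ IsAffine P.F ∧ ConnectedSpace P.F := by
  have hu : Unique (Spec (.of Ω) : Scheme.{0}) := inferInstanceAs (Unique (PrimeSpectrum Ω))
  let e := Scheme.homeoOfIso (asIso P.π)
  have h1 : Subsingleton P.F := e.injective.subsingleton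
  have h2 : Nonempty P.F := ⟨e.symm default⟩
  refine ⟨h2, h1, IsAffine.of_isIso P.π, ?_⟩
  exact { toNonempty := h2, isPreconnected_univ := Set.subsingleton_univ.isPreconnected }

/-- The class of the points with an invertible sheaf. -/
def ptClass : PolClass where
  mem _ _ _ _ P := IsIso P.π ∧ IsInvertible P.H
  isPolarized Ω _ _ _ P h := by
    obtain ⟨h1, h2⟩ := h
    obtain ⟨h3, h4, h5, h6⟩ := isIso_points P h1
    obtain ⟨i⟩ := h2.trivial
    exact ⟨inferInstance, inferInstance, h6, h2, isAmple_of_iso i.symm⟩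
  iso Ω _ _ _ P P' h h' := by
    obtain ⟨e, he, ⟨i⟩⟩ := h
    obtain ⟨h1, h2⟩ := h'
    refine ⟨?_, ?_⟩
    · have h3 : P'.π = e.inv ≫ P.π := by rw [← he, e.inv_hom_id_assoc]
      rw [h3]
      infer_instance
    · have h3 : IsInvertible ((Scheme.Modules.pullback e.inv).obj
          ((Scheme.Modules.pullback e.hom).obj P'.H)) := (h2.of_iso i.symm).pullback _
      exact h3.of_iso ((Scheme.Modules.pullbackComp e.inv e.hom).app _ ≪≫
        (Scheme.Modules.pullbackCongr e.inv_hom_id).app _ ≪≫
        (Scheme.Modules.pullbackId _).app _)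

/-- A smooth proper morphism whose geometric fibres are points is an isomorphism. -/
theorem isIso_of_fibres {X S : Scheme.{0}} (f : X ⟶ S) (hs : Smooth f) (hp : IsProper f)
    (h : ∀ s : S, ∃ (Ω : Type) (_ : Field Ω) (g : Spec (.of Ω) ⟶ S), s ∈ Set.range g ∧
      IsIso (pullback.snd f g)) : IsIso f := by
  have hinj : Function.Injective f := by
    intro x y hxy
    obtain ⟨Ω, _, g, ⟨p, hp1⟩, hiso⟩ := h (f x)
    have hu : Unique (Spec (.of Ω) : Scheme.{0}) := inferInstanceAs (Unique (PrimeSpectrum Ω))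
    let e := Scheme.homeoOfIso (asIso (pullback.snd f g))
    have h1 : Subsingleton (pullback f g : Scheme.{0}) := e.injective.subsingleton
    have hx : x ∈ Set.range (pullback.fst f g) := by
      rw [Scheme.Pullback.range_fst]
      exact ⟨p, hp1⟩
    have hy : y ∈ Set.range (pullback.fst f g) := by
      rw [Scheme.Pullback.range_fst]
      exact ⟨p, hp1.trans hxy⟩
    obtain ⟨x', rfl⟩ := hx
    obtain ⟨y', rfl⟩ := hy
    rw [Subsingleton.elim x' y']
  have h1 : LocallyQuasiFinite f := LocallyQuasiFinite.of_injective hinj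
  have h2 : IsFinite f := IsFinite.of_isProper_of_locallyQuasiFinite f
  have h3 : Flat f := inferInstance
  rw [Scheme.Hom.isIso_iff_finrank_eq]
  ext s
  obtain ⟨Ω, _, g, ⟨p, hp1⟩, hiso⟩ := h s
  rw [← hp1, ← Scheme.Hom.finrank_pullback_snd f g, Scheme.Hom.finrank_eq_one_of_isIso]
  rfl

/-- On a family `f : X ⟶ S` which is an isomorphism all invertible sheaves are isomorphic locally
on `S`. -/
theorem locIso_of_isIso {X S : Scheme.{0}} (f : X ⟶ S) [IsIso f] {M N : X.Modules}
    (hM : IsInvertible M) (hN : IsInvertible N) : LocIso f M N := fun s => by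
  obtain ⟨U, hU, ⟨i⟩⟩ := hM (inv f s)
  obtain ⟨U', hU', ⟨i'⟩⟩ := hN (inv f s)
  have h1 : f ⁻¹ᵁ ((inv f) ⁻¹ᵁ (U ⊓ U')) = U ⊓ U' := by
    rw [← Scheme.Hom.comp_preimage, IsIso.hom_inv_id]
    rfl
  refine ⟨(inv f) ⁻¹ᵁ (U ⊓ U'), ⟨hU, hU'⟩, ⟨?_⟩⟩
  have e1 : f ⁻¹ᵁ ((inv f) ⁻¹ᵁ (U ⊓ U')) ≤ U := by rw [h1]; exact inf_le_left
  have e2 : f ⁻¹ᵁ ((inv f) ⁻¹ᵁ (U ⊓ U')) ≤ U' := by rw [h1]; exact inf_le_right
  exact restrictIsoOfLE e1 (i ≪≫ (Scheme.Modules.restrictUnitIso U.ι).symm) ≪≫
    (restrictIsoOfLE e2 (i' ≪≫ (Scheme.Modules.restrictUnitIso U'.ι).symm)).symm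

/-- The families of points are isomorphisms. -/
theorem fam_isIso (a : Fam Conventions.std ptClass) : IsIso a.f := by
  refine isIso_of_fibres a.f a.smooth a.proper fun s => ?_
  let k := a.S.left.residueField s
  let Ω := AlgebraicClosure k
  let g : Spec (.of Ω) ⟶ a.S.left :=
    Spec.map (CommRingCat.ofHom (algebraMap k Ω)) ≫ a.S.left.fromSpecResidueField s
  let φ : CommRingCat.of ℂ ⟶ CommRingCat.of Ω := Spec.preimage (g ≫ a.S.hom)
  have hφ : Spec.map φ = g ≫ a.S.hom := Spec.map_preimage _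
  let _ : Algebra ℂ Ω := φ.hom.toAlgebra
  refine ⟨Ω, inferInstance, g, ?_, (a.fibres Ω g hφ.symm).1⟩
  refine ⟨(default : PrimeSpectrum Ω), ?_⟩
  change (Spec.map (CommRingCat.ofHom (algebraMap k Ω)) ≫ a.S.left.fromSpecResidueField s) _ = s
  rw [Scheme.Hom.comp_apply, Scheme.fromSpecResidueField_apply]

variable (a b : Fam Conventions.std ptClass)

/-- The morphism of families over a morphism of the base schemes. -/
noncomputable def ptHom (φ : a.S ⟶ b.S) : a ⟶ b :=
  have h1 : IsIso a.f := fam_isIso a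
  have h2 : IsIso b.f := fam_isIso b
  Fam.Hom.mk φ (a.f ≫ φ.left ≫ inv b.f)
    (IsPullback.of_vert_isIso ⟨by simp⟩)
    (locIso_of_isIso a.f (b.invertible.pullback _) a.invertible)

/-- The family `S ⟶ S` with the structure sheaf. -/
noncomputable def ptFam (S : SchC) : Fam Conventions.std ptClass where
  S := S
  hS := trivial
  X := S.left
  f := 𝟙 _
  L := oX S.left
  smooth := inferInstance
  proper := inferInstance
  invertible := isInvertible_unit _
  cond := trivial
  fibres _ _ _ _ _ _ := ⟨(inferInstance : IsIso (pullback.snd (𝟙 S.left) _)),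
    (isInvertible_unit _).pullback _⟩

theorem full : (Fam.proj Conventions.std ptClass).Full where
  map_surjective {a b} φ := ⟨ptHom a b φ, rfl⟩

theorem faithful : (Fam.proj Conventions.std ptClass).Faithful where
  map_injective {a b} u v h := by
    have h2 : IsIso b.f := fam_isIso b
    have hb : u.base = v.base := h
    refine Fam.Hom.ext hb ?_
    rw [← cancel_mono b.f, u.cart.w, v.cart.w, hb]

theorem essSurj : (Fam.proj Conventions.std ptClass).EssSurj where
  mem_essImage S := ⟨ptFam S, ⟨Iso.refl _⟩⟩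

/-- **`Spec ℂ` is a moduli stack**: the moduli stack of the class of points is equivalent to the
category of all `ℂ`-schemes. -/
theorem isModuliStackFor_points : IsModuliStackFor Conventions.std ptClass (𝟭 SchC) := by
  have h1 := full
  have h2 := faithful
  have h3 := essSurj
  have h4 : (Fam.proj Conventions.std ptClass).IsEquivalence := { }
  exact ⟨(Fam.proj Conventions.std ptClass).asEquivalence, ⟨Functor.rightUnitor _⟩⟩

end points

end Pool.Agent.MS9
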