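import Pool.Agent.LibMS9.Mods

/-!
# The moduli stack, and the lifting of derivations of `ℂ`
-/

set_option autoImplicit false

open CategoryTheory Limits AlgebraicGeometry Opposite TopologicalSpace

namespace Pool.Agent.MS9

/-! ## Twisted structures on `Z[ε]` -/

/-- `Spec ℂ[ε] ⟶ Spec ℂ` given by the inclusion `ℂ ⟶ ℂ[ε]`. -/
noncomputable abbrev specInl : Spec (.of (DualNumber ℂ)) ⟶ Spec (.of ℂ) :=
  Spec.map (CommRingCat.ofHom (algebraMap ℂ (DualNumber ℂ)))

/-- `Spec ℂ ⟶ Spec ℂ[ε]` given by `ε ↦ 0`. -/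
noncomputable abbrev specFst : Spec (.of ℂ) ⟶ Spec (.of (DualNumber ℂ)) :=
  Spec.map (CommRingCat.ofHom (TrivSqZeroExt.fstHom ℂ ℂ ℂ).toRingHom)

/-- The scheme `Z[ε]`. -/
noncomputable abbrev dual (Z : SchC) : Scheme.{0} := pullback Z.hom specInl

variable (τ : ℂ →+* DualNumber ℂ)

/-- `Z[ε]` with the `ℂ`-structure twisted by the ring homomorphism `τ : ℂ ⟶ ℂ[ε]`. -/
noncomputable def twist (Z : SchC) : SchC :=
  Over.mk (pullback.snd Z.hom specInl ≫ Spec.map (CommRingCat.ofHom τ))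

theorem specFst_specInl : specFst ≫ specInl = 𝟙 _ := by
  rw [← Spec.map_comp, ← CommRingCat.ofHom_comp, ← Spec.map_id]
  congr 1

theorem specFst_map (hτ : ∀ a, TrivSqZeroExt.fst (τ a) = a) :
    specFst ≫ Spec.map (CommRingCat.ofHom τ) = 𝟙 _ := by
  rw [← Spec.map_comp, ← CommRingCat.ofHom_comp, ← Spec.map_id]
  congr 1
  ext a
  exact hτ a

/-- The closed immersion `Z ⟶ Z[ε]`. -/
noncomputable def zeroLeft (Z : SchC) : Z.left ⟶ dual Z :=
  pullback.lift (𝟙 _) (Z.hom ≫ specFst) (by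
    rw [Category.assoc, specFst_specInl, Category.id_comp, Category.comp_id])

theorem zeroLeft_fst (Z : SchC) : zeroLeft Z ≫ pullback.fst Z.hom specInl = 𝟙 _ :=
  pullback.lift_fst _ _ _

theorem zeroLeft_snd (Z : SchC) : zeroLeft Z ≫ pullback.snd Z.hom specInl = Z.hom ≫ specFst :=
  pullback.lift_snd _ _ _

/-- The closed immersion `Z ⟶ Z[ε]` is a morphism of `ℂ`-schemes also for the twisted structure. -/
noncomputable def zeroSec (hτ : ∀ a, TrivSqZeroExt.fst (τ a) = a) (Z : SchC) : Z ⟶ twist τ Z :=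
  Over.homMk (zeroLeft Z) (by
    change zeroLeft Z ≫ pullback.snd Z.hom specInl ≫ Spec.map (CommRingCat.ofHom τ) = Z.hom
    rw [← Category.assoc, zeroLeft_snd, Category.assoc, specFst_map τ hτ, Category.comp_id])

/-- A morphism from `Spec ℂ[ε]` to a field kills `ε`. -/
theorem hom_eq_of_field {Ω : Type} [Field Ω] (hτ : ∀ a, TrivSqZeroExt.fst (τ a) = a)
    (χ : DualNumber ℂ →+* Ω) : χ.comp τ = χ.comp (algebraMap ℂ (DualNumber ℂ)) := by
  ext a
  have h : τ a - algebraMap ℂ (DualNumber ℂ) a = TrivSqZeroExt.inr (TrivSqZeroExt.snd (τ a)) := by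
    ext
    · simp [hτ a, TrivSqZeroExt.algebraMap_eq_inl]
    · simp [TrivSqZeroExt.algebraMap_eq_inl]
  have h2 : (χ (TrivSqZeroExt.inr (TrivSqZeroExt.snd (τ a)))) ^ 2 = 0 := by
    rw [← map_pow, pow_two, TrivSqZeroExt.inr_mul_inr, map_zero]
  have h3 := pow_eq_zero_iff (two_ne_zero) |>.1 h2
  rw [← h, map_sub, sub_eq_zero] at h3
  exact h3

/-- Isomorphism of the fibres: the fibre of the base change of `(f, L)` at `s` is the fibre
of `(f, L)` at the image of `s`. -/
theorem fibre_baseChange {X S P : Scheme.{0}} (f : X ⟶ S) (L : X.Modules) (q : P ⟶ S) {Ω : Type}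
    [Field Ω] (s : Spec (.of Ω) ⟶ P) (s' : Spec (.of Ω) ⟶ S) (hs : s ≫ q = s') :
    (fibre f L s').Iso
      (fibre (pullback.snd f q) ((Scheme.Modules.pullback (pullback.fst f q)).obj L) s) := by
  subst hs
  have sq : IsPullback (pullback.fst (pullback.snd f q) s ≫ pullback.fst f q)
      (pullback.snd (pullback.snd f q) s) f (s ≫ q) :=
    (IsPullback.of_hasPullback (pullback.snd f q) s).paste_horiz
      (IsPullback.of_hasPullback f q)
  let e : pullback f (s ≫ q) ≅ pullback (pullback.snd f q) s :=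
    (IsPullback.of_hasPullback f (s ≫ q)).isoIsPullback _ _ sq
  have e1 : e.hom ≫ pullback.fst (pullback.snd f q) s ≫ pullback.fst f q =
      pullback.fst f (s ≫ q) :=
    (IsPullback.of_hasPullback f (s ≫ q)).isoIsPullback_hom_fst _ _ sq
  have e2 : e.hom ≫ pullback.snd (pullback.snd f q) s = pullback.snd f (s ≫ q) :=
    (IsPullback.of_hasPullback f (s ≫ q)).isoIsPullback_hom_snd _ _ sq
  refine ⟨e, e2, ⟨?_⟩⟩
  exact (Scheme.Modules.pullback e.hom).mapIso
      ((Scheme.Modules.pullbackComp (pullback.fst (pullback.snd f q) s)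
        (pullback.fst f q)).app L) ≪≫
    (Scheme.Modules.pullbackComp e.hom (pullback.fst (pullback.snd f q) s ≫
        pullback.fst f q)).app L ≪≫
    (Scheme.Modules.pullbackCongr e1).app L

section lift

variable {K : Conventions} {C : PolClass} {Z : SchC}

/-- The morphism `Z[ε] ⟶ Z ≅ S` underlying the base change. -/
noncomputable abbrev retr {S : SchC} (θ : S ≅ Z) : dual Z ⟶ S.left :=
  pullback.fst Z.hom specInl ≫ θ.inv.left

theorem twist_fibre (hτ : ∀ a, TrivSqZeroExt.fst (τ a) = a) {S : SchC} (θ : S ≅ Z) {Ω : Type}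
    [Field Ω] [Algebra ℂ Ω] (s : Spec (.of Ω) ⟶ dual Z)
    (hs : s ≫ pullback.snd Z.hom specInl ≫ Spec.map (CommRingCat.ofHom τ) =
      Spec.map (CommRingCat.ofHom (algebraMap ℂ Ω))) :
    (s ≫ retr θ) ≫ S.hom = Spec.map (CommRingCat.ofHom (algebraMap ℂ Ω)) := by
  have h1 : θ.inv.left ≫ S.hom = Z.hom := Over.w θ.inv
  obtain ⟨χ, hχ⟩ : ∃ χ : CommRingCat.of (DualNumber ℂ) ⟶ CommRingCat.of Ω,
      Spec.map χ = s ≫ pullback.snd Z.hom specInl := ⟨Spec.preimage _, Spec.map_preimage _⟩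
  rw [← Category.assoc, ← hχ, ← Spec.map_comp] at hs
  rw [Category.assoc, Category.assoc, h1, pullback.condition, ← Category.assoc, ← hχ,
    ← Spec.map_comp, ← hs]
  congr 1
  ext a
  have h3 := hom_eq_of_field τ hτ χ.hom
  exact (congrArg (fun k => k a) h3).symm

theorem smooth_bc {X S P : Scheme.{0}} (f : X ⟶ S) (q : P ⟶ S) (h : Smooth f) :
    Smooth (pullback.snd f q) := inferInstance

theorem proper_bc {X S P : Scheme.{0}} (f : X ⟶ S) (q : P ⟶ S) (h : IsProper f) :
    IsProper (pullback.snd f q) := inferInstance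

/-- The section of the base change given by a section of the base. -/
noncomputable def secMap {X S P : Scheme.{0}} (f : X ⟶ S) (q : P ⟶ S) (z : S ⟶ P)
    (hz : z ≫ q = 𝟙 _) : X ⟶ pullback f q :=
  pullback.lift (𝟙 _) (f ≫ z) (by rw [Category.assoc, hz, Category.id_comp, Category.comp_id])

theorem secMap_fst {X S P : Scheme.{0}} (f : X ⟶ S) (q : P ⟶ S) (z : S ⟶ P)
    (hz : z ≫ q = 𝟙 _) : secMap f q z hz ≫ pullback.fst f q = 𝟙 _ := pullback.lift_fst _ _ _

theorem secMap_snd {X S P : Scheme.{0}} (f : X ⟶ S) (q : P ⟶ S) (z : S ⟶ P)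
    (hz : z ≫ q = 𝟙 _) : secMap f q z hz ≫ pullback.snd f q = f ≫ z := pullback.lift_snd _ _ _

theorem secMap_cart {X S P : Scheme.{0}} (f : X ⟶ S) (q : P ⟶ S) (z : S ⟶ P)
    (hz : z ≫ q = 𝟙 _) : IsPullback (secMap f q z hz) f (pullback.snd f q) z := by
  refine IsPullback.of_right (h₁₂ := pullback.fst f q) (h₂₂ := q) (v₁₃ := f) ?_
    (secMap_snd f q z hz) (IsPullback.of_hasPullback _ _)
  rw [secMap_fst, hz]
  exact IsPullback.of_horiz_isIso ⟨by simp⟩

/-- The base change of a family over `S ≅ Z` to `Z[ε]` with the twisted structure. -/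
noncomputable def twistFam (hτ : ∀ a, TrivSqZeroExt.fst (τ a) = a) (u : Fam K C) (θ : u.S ≅ Z)
    (hb : K.base (twist τ Z)) : Fam K C where
  S := twist τ Z
  hS := hb
  X := pullback u.f (retr θ)
  f := (pullback.snd u.f (retr θ) : pullback u.f (retr θ) ⟶ dual Z)
  L := (Scheme.Modules.pullback (pullback.fst u.f (retr θ))).obj u.L
  smooth := smooth_bc u.f (retr θ) u.smooth
  proper := proper_bc u.f (retr θ) u.proper
  invertible := u.invertible.pullback _
  cond := K.cond_baseChange u.f _ _ _ u.L (IsPullback.of_hasPullback u.f (retr θ)) u.cond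
  fibres Ω _ _ _ s hs :=
    C.iso Ω _ _ (fibre_baseChange u.f u.L (retr θ) s _ rfl)
      (u.fibres Ω _ (twist_fibre τ hτ θ s hs))

theorem zeroLeft_retr {S : SchC} (θ : S ≅ Z) :
    (θ.hom.left ≫ zeroLeft Z) ≫ retr θ = 𝟙 _ := by
  rw [Category.assoc, ← Category.assoc (zeroLeft Z), zeroLeft_fst, Category.id_comp]
  exact congrArg (fun k => k.left) θ.hom_inv_id

/-- The morphism from the family to its twisted base change. -/
noncomputable def twistHom (hτ : ∀ a, TrivSqZeroExt.fst (τ a) = a) (u : Fam K C) (θ : u.S ≅ Z)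
    (hb : K.base (twist τ Z)) : u ⟶ twistFam τ hτ u θ hb where
  base := (θ.hom ≫ zeroSec τ hτ Z : u.S ⟶ twist τ Z)
  g := secMap u.f (retr θ) (θ.hom.left ≫ zeroLeft Z) (zeroLeft_retr θ)
  cart := secMap_cart u.f (retr θ) (θ.hom.left ≫ zeroLeft Z) (zeroLeft_retr θ)
  rel := K.rel_of_iso _
    ((Scheme.Modules.pullbackComp _ _).app u.L ≪≫
      (Scheme.Modules.pullbackCongr (secMap_fst _ _ _ _)).app u.L ≪≫
      (Scheme.Modules.pullbackId _).app u.L)

end lift

end Pool.Agent.MS9
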