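import Pool.Agent.LibMS9.T2

/-!
T3, ring part: the localizations of the cone at the partial derivatives are smooth over `ℂ`.
-/

set_option autoImplicit false

namespace Pool.Agent.MS9

/-- Newton's step: an approximate point of the cone modulo a square zero ideal can be corrected if
a partial derivative is invertible. -/
theorem t3_newton {B : Type} [CommRing B] [Algebra ℂ B] (I : Ideal B) (hI : I ^ 2 = ⊥) (l : B)
    (a b c : B) (hf : c ^ 3 - 3 * l * a * b * c + (a ^ 3 + b ^ 3) ∈ I)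
    (hu : IsUnit (a ^ 2 - l * b * c) ∨ IsUnit (b ^ 2 - l * a * c) ∨
      IsUnit (c ^ 2 - l * a * b)) :
    ∃ a' b' c' : B, a' - a ∈ I ∧ b' - b ∈ I ∧ c' - c ∈ I ∧
      c' ^ 3 - 3 * l * a' * b' * c' + (a' ^ 3 + b' ^ 3) = 0 := by
  set Δ := c ^ 3 - 3 * l * a * b * c + (a ^ 3 + b ^ 3) with hΔ
  set t : B := algebraMap ℂ B (1 / 3) with ht
  have ht3 : 3 * t = 1 := by
    have h1 : algebraMap ℂ B (3 * (1 / 3)) = 1 := by
      rw [show (3 * (1 / 3) : ℂ) = 1 by norm_num, map_one]
    rw [map_mul, map_ofNat] at h1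
    exact h1
  have hsq : ∀ h : B, h ∈ I → h * h = 0 := by
    intro h hh
    have h1 : h * h ∈ I ^ 2 := by
      rw [pow_two]
      exact Ideal.mul_mem_mul hh hh
    rw [hI] at h1
    exact (Ideal.mem_bot).1 h1
  rcases hu with hu | hu | hu
  · obtain ⟨v, hv⟩ := hu.exists_right_inv
    have hh : -(Δ * v * t) ∈ I := by
      apply I.neg_mem
      rw [mul_assoc]
      exact I.mul_mem_right _ hf
    have h2 := hsq _ hh
    refine ⟨a + -(Δ * v * t), b, c, by rw [add_sub_cancel_left]; exact hh,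
      by rw [sub_self]; exact I.zero_mem, by rw [sub_self]; exact I.zero_mem, ?_⟩
    have h3 : c ^ 3 - 3 * l * (a + -(Δ * v * t)) * b * c + ((a + -(Δ * v * t)) ^ 3 + b ^ 3) =
        Δ - Δ * (3 * t) * ((a ^ 2 - l * b * c) * v) +
          (3 * a + -(Δ * v * t)) * (-(Δ * v * t) * -(Δ * v * t)) := by
      rw [hΔ]; ring
    rw [h3, h2, hv, ht3]
    ring
  · obtain ⟨v, hv⟩ := hu.exists_right_inv
    have hh : -(Δ * v * t) ∈ I := by
      apply I.neg_mem
      rw [mul_assoc]
      exact I.mul_mem_right _ hf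
    have h2 := hsq _ hh
    refine ⟨a, b + -(Δ * v * t), c, by rw [sub_self]; exact I.zero_mem,
      by rw [add_sub_cancel_left]; exact hh, by rw [sub_self]; exact I.zero_mem, ?_⟩
    have h3 : c ^ 3 - 3 * l * a * (b + -(Δ * v * t)) * c + (a ^ 3 + (b + -(Δ * v * t)) ^ 3) =
        Δ - Δ * (3 * t) * ((b ^ 2 - l * a * c) * v) +
          (3 * b + -(Δ * v * t)) * (-(Δ * v * t) * -(Δ * v * t)) := by
      rw [hΔ]; ring
    rw [h3, h2, hv, ht3]
    ring
  · obtain ⟨v, hv⟩ := hu.exists_right_inv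
    have hh : -(Δ * v * t) ∈ I := by
      apply I.neg_mem
      rw [mul_assoc]
      exact I.mul_mem_right _ hf
    have h2 := hsq _ hh
    refine ⟨a, b, c + -(Δ * v * t), by rw [sub_self]; exact I.zero_mem,
      by rw [sub_self]; exact I.zero_mem, by rw [add_sub_cancel_left]; exact hh, ?_⟩
    have h3 : (c + -(Δ * v * t)) ^ 3 - 3 * l * a * b * (c + -(Δ * v * t)) + (a ^ 3 + b ^ 3) =
        Δ - Δ * (3 * t) * ((c ^ 2 - l * a * b) * v) +
          (3 * c + -(Δ * v * t)) * (-(Δ * v * t) * -(Δ * v * t)) := by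
      rw [hΔ]; ring
    rw [h3, h2, hv, ht3]
    ring

/-- points of the cone -/
theorem t3_lift (lam : ℂ) {B : Type} [CommRing B] [Algebra ℂ B] (a b c : B)
    (h : c ^ 3 - 3 * algebraMap ℂ B lam * a * b * c + (a ^ 3 + b ^ 3) = 0) :
    ∃ ψ : Cone lam →ₐ[ℂ] B, ψ (Cone.x lam) = a ∧ ψ (Cone.y lam) = b ∧
      ψ (AdjoinRoot.root (conePoly lam)) = c := by
  let f : MvPolynomial (Fin 2) ℂ →ₐ[ℂ] B := MvPolynomial.aeval ![a, b]
  have hf0 : f (MvPolynomial.X 0) = a := by simp [f]
  have hf1 : f (MvPolynomial.X 1) = b := by simp [f]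
  have hfC : ∀ z : ℂ, f (MvPolynomial.C z) = algebraMap ℂ B z := fun z => by simp [f]
  have hev : (conePoly lam).eval₂ (f : MvPolynomial (Fin 2) ℂ →+* B) c = 0 := by
    unfold conePoly
    simp only [Polynomial.eval₂_add, Polynomial.eval₂_sub, Polynomial.eval₂_mul,
      Polynomial.eval₂_pow, Polynomial.eval₂_X, Polynomial.eval₂_C]
    rw [map_mul, map_mul, map_add, map_pow, map_pow, RingHom.coe_coe, hf0, hf1, hfC, map_mul,
      map_ofNat]
    linear_combination h
  refine ⟨AdjoinRoot.liftAlgHom (conePoly lam) f c hev, ?_, ?_, ?_⟩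
  · show AdjoinRoot.liftAlgHom (conePoly lam) f c hev (AdjoinRoot.of _ (MvPolynomial.X 0)) = a
    rw [AdjoinRoot.liftAlgHom_of]
    exact hf0
  · show AdjoinRoot.liftAlgHom (conePoly lam) f c hev (AdjoinRoot.of _ (MvPolynomial.X 1)) = b
    rw [AdjoinRoot.liftAlgHom_of]
    exact hf1
  · exact AdjoinRoot.liftAlgHom_root _ _ _ _

/-- homomorphisms from the cone are determined by the images of the coordinates -/
theorem t3_ext (lam : ℂ) {B : Type} [CommRing B] [Algebra ℂ B] (φ ψ : Cone lam →ₐ[ℂ] B)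
    (hx : φ (Cone.x lam) = ψ (Cone.x lam)) (hy : φ (Cone.y lam) = ψ (Cone.y lam))
    (hz : φ (AdjoinRoot.root (conePoly lam)) = ψ (AdjoinRoot.root (conePoly lam))) : φ = ψ := by
  have h1 : (φ : Cone lam →+* B) = (ψ : Cone lam →+* B) := by
    apply AdjoinRoot.ringHom_ext
    · apply MvPolynomial.ringHom_ext
      · intro r
        exact (φ.commutes r).trans (ψ.commutes r).symm
      · intro i
        fin_cases i
        · exact hx
        · exact hy
    · exact hz
  exact AlgHom.coe_ringHom_injective h1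

theorem t3_formallySmooth (lam : ℂ) (g : Cone lam)
    (hg : g = Cone.x lam ^ 2 - algebraMap ℂ _ lam * Cone.y lam * AdjoinRoot.root (conePoly lam) ∨
      g = Cone.y lam ^ 2 - algebraMap ℂ _ lam * Cone.x lam * AdjoinRoot.root (conePoly lam) ∨
      g = AdjoinRoot.root (conePoly lam) ^ 2 - algebraMap ℂ _ lam * Cone.x lam * Cone.y lam) :
    Algebra.FormallySmooth ℂ (Localization.Away g) := by
  apply Algebra.FormallySmooth.of_comp_surjective
  intro B _ _ I hI φ
  have hnil : IsNilpotent I := ⟨2, by rw [hI]; rfl⟩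
  let φ' : Cone lam →ₐ[ℂ] B ⧸ I := φ.comp (IsScalarTower.toAlgHom ℂ (Cone lam) (Localization.Away g))
  obtain ⟨a, ha⟩ := Ideal.Quotient.mk_surjective (φ' (Cone.x lam))
  obtain ⟨b, hb⟩ := Ideal.Quotient.mk_surjective (φ' (Cone.y lam))
  obtain ⟨c, hc⟩ := Ideal.Quotient.mk_surjective (φ' (AdjoinRoot.root (conePoly lam)))
  have hal : φ' (algebraMap ℂ _ lam) = Ideal.Quotient.mk I (algebraMap ℂ B lam) := φ'.commutes lam
  have hrel : AdjoinRoot.root (conePoly lam) ^ 3 - 3 * algebraMap ℂ (Cone lam) lam * Cone.x lam *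
      Cone.y lam * AdjoinRoot.root (conePoly lam) + (Cone.x lam ^ 3 + Cone.y lam ^ 3) = 0 := by
    linear_combination t2_rel lam
  have hf : c ^ 3 - 3 * algebraMap ℂ B lam * a * b * c + (a ^ 3 + b ^ 3) ∈ I := by
    rw [← Ideal.Quotient.eq_zero_iff_mem]
    have h1 := congrArg φ' hrel
    simp only [map_add, map_sub, map_mul, map_pow, map_ofNat, map_zero, ← ha, ← hb, ← hc, hal] at h1
    simp only [map_add, map_sub, map_mul, map_pow, map_ofNat]
    exact h1
  have hgu : IsUnit (φ' g) :=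
    (IsLocalization.Away.algebraMap_isUnit (S := Localization.Away g) g).map φ
  have hu : IsUnit (a ^ 2 - algebraMap ℂ B lam * b * c) ∨
      IsUnit (b ^ 2 - algebraMap ℂ B lam * a * c) ∨
      IsUnit (c ^ 2 - algebraMap ℂ B lam * a * b) := by
    rcases hg with hg | hg | hg
    · left
      rw [← IsNilpotent.isUnit_quotient_mk_iff hnil]
      rw [hg] at hgu
      simp only [map_sub, map_mul, map_pow, ← ha, ← hb, ← hc, hal] at hgu ⊢
      exact hgu
    · right; left
      rw [← IsNilpotent.isUnit_quotient_mk_iff hnil]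
      rw [hg] at hgu
      simp only [map_sub, map_mul, map_pow, ← ha, ← hb, ← hc, hal] at hgu ⊢
      exact hgu
    · right; right
      rw [← IsNilpotent.isUnit_quotient_mk_iff hnil]
      rw [hg] at hgu
      simp only [map_sub, map_mul, map_pow, ← ha, ← hb, ← hc, hal] at hgu ⊢
      exact hgu
  obtain ⟨a', b', c', ha', hb', hc', hf'⟩ := t3_newton I hI (algebraMap ℂ B lam) a b c hf hu
  obtain ⟨ψ, hψx, hψy, hψz⟩ := t3_lift lam a' b' c' hf'
  have hψ : (Ideal.Quotient.mkₐ ℂ I).comp ψ = φ' := by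
    apply t3_ext
    · rw [AlgHom.comp_apply, hψx, ← ha]
      exact Ideal.Quotient.eq.2 ha'
    · rw [AlgHom.comp_apply, hψy, ← hb]
      exact Ideal.Quotient.eq.2 hb'
    · rw [AlgHom.comp_apply, hψz, ← hc]
      exact Ideal.Quotient.eq.2 hc'
  have hψg : IsUnit (ψ g) := by
    rw [← IsNilpotent.isUnit_quotient_mk_iff hnil]
    have h1 : Ideal.Quotient.mk I (ψ g) = φ' g := by
      rw [← hψ]; rfl
    rw [h1]
    exact hgu
  have hpow : ∀ y : Submonoid.powers g, IsUnit (ψ y) := by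
    rintro ⟨_, n, rfl⟩
    show IsUnit (ψ (g ^ n))
    rw [map_pow]
    exact hψg.pow n
  refine ⟨IsLocalization.liftAlgHom (M := Submonoid.powers g) (f := ψ) hpow, ?_⟩
  apply IsLocalization.algHom_ext (Submonoid.powers g)
  apply AlgHom.ext
  intro u
  show Ideal.Quotient.mk I (IsLocalization.liftAlgHom (M := Submonoid.powers g) (f := ψ) hpow
    (algebraMap (Cone lam) (Localization.Away g) u)) = φ' u
  rw [IsLocalization.liftAlgHom_apply, IsLocalization.lift_eq, ← hψ]
  rfl

theorem t3_smooth (lam : ℂ) (g : Cone lam)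
    (hg : g = Cone.x lam ^ 2 - algebraMap ℂ _ lam * Cone.y lam * AdjoinRoot.root (conePoly lam) ∨
      g = Cone.y lam ^ 2 - algebraMap ℂ _ lam * Cone.x lam * AdjoinRoot.root (conePoly lam) ∨
      g = AdjoinRoot.root (conePoly lam) ^ 2 - algebraMap ℂ _ lam * Cone.x lam * Cone.y lam) :
    Algebra.Smooth ℂ (Localization.Away g) := by
  have h1 := t3_formallySmooth lam g hg
  have h2 : Algebra.FiniteType (MvPolynomial (Fin 2) ℂ) (Cone lam) := inferInstance
  have h3 : Algebra.FiniteType ℂ (Cone lam) :=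
    Algebra.FiniteType.trans (S := MvPolynomial (Fin 2) ℂ) inferInstance h2
  have h4 : Algebra.FiniteType (Cone lam) (Localization.Away g) :=
    IsLocalization.finiteType_of_monoid_fg (Submonoid.powers g) _
  have h5 : Algebra.FiniteType ℂ (Localization.Away g) :=
    Algebra.FiniteType.trans (S := Cone lam) h3 h4
  have h6 : Algebra.FinitePresentation ℂ (Localization.Away g) :=
    Algebra.FinitePresentation.of_finiteType.1 h5
  exact ⟨h1, h6⟩

end Pool.Agent.MS9
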